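import Pool.Agent.R929.OC.Defs

/-!
# Central idempotents of the algebra of correspondences
-/

namespace Pool.Agent.R929.OC

open Module Finset Pool.Agent.TH125.Tw

variable {n : ℕ} {X Y : Twisted n} (D : Corr X Y)

/-- Induction on the cohomology of the union. -/
theorem ind2 {P : X.H × Y.H → Prop} (hadd : ∀ z w, P z → P w → P (z + w))
    (hx : ∀ p q, ∀ x ∈ X.piece p q, P (x, 0)) (hy : ∀ p q, ∀ y ∈ Y.piece p q, P (0, y))
    (z : X.H × Y.H) : P z := by
  have h0 : P 0 := hx 0 0 0 (Submodule.zero_mem _)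
  have h1 : ∀ x : X.H, P (x, 0) := fun x => X.ind (P := fun x => P (x, 0)) h0
    (fun x y hx hy => by
      have := hadd _ _ hx hy
      rwa [Prod.mk_add_mk, add_zero] at this) hx x
  have h2 : ∀ y : Y.H, P (0, y) := fun y => Y.ind (P := fun y => P (0, y)) h0
    (fun x y hx hy => by
      have := hadd _ _ hx hy
      rwa [Prod.mk_add_mk, add_zero] at this) hy y
  have h3 := hadd _ _ (h1 z.1) (h2 z.2)
  rwa [Prod.mk_add_mk, add_zero, zero_add] at h3

namespace Corr

theorem one_mem : (1 : D.C) ∈ D.deg 0 := by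
  rw [← D.d_add]
  exact Submodule.add_mem _ D.dX_mem D.dY_mem

theorem dXdY : D.dX * D.dY = 0 := by
  have h : D.dX * (D.dX + D.dY) = D.dX := by rw [D.d_add, mul_one]
  rw [mul_add, D.dX_idem] at h
  simpa using h

theorem dYdX : D.dY * D.dX = 0 := by
  have h : D.dY * (D.dX + D.dY) = D.dY := by rw [D.d_add, mul_one]
  rw [mul_add, D.dY_idem] at h
  simpa using h

theorem mul_mem0 {a b : D.C} (ha : a ∈ D.deg 0) (hb : b ∈ D.deg 0) : a * b ∈ D.deg 0 := by
  have := D.deg_mul ha hb
  rwa [add_zero] at this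

theorem act_zero_mem {c : D.C} (hc : c ∈ D.deg 0) {p q : ℕ} {x : X.H} {y : Y.H}
    (hx : x ∈ X.piece p q) (hy : y ∈ Y.piece p q) :
    (D.act c (x, y)).1 ∈ X.piece p q ∧ (D.act c (x, y)).2 ∈ Y.piece p q :=
  (D.act_mem hc hx hy).1 p q (by simp) (by simp)

end Corr

/-- The condition on Künneth projectors. -/
def IsKun (π : ℕ → D.C) : Prop := (∀ k, π k ∈ D.deg 0) ∧
  ∀ (k p q : ℕ) (x : X.H) (y : Y.H), x ∈ X.piece p q → y ∈ Y.piece p q →
    D.act (π k) (x, y) = if p + q = k then (x, y) else 0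

theorem exists_kun (hK : Kunneth D) : ∃ π : ℕ → D.C, IsKun D π := by
  choose π h1 h2 using hK.act
  exact ⟨π, h1, fun k p q x y hx hy => h2 k p q x y hx hy⟩

variable {D} {π : ℕ → D.C}

theorem kun_ne (hπ : IsKun D π) {r : ℤ} (hr : r ≠ 0) {c : D.C} (hc : c ∈ D.deg r) (k : ℕ)
    (z : X.H × Y.H) : D.act (π k) (D.act c (D.act (π k) z)) = 0 := by
  have key : ∀ (p q : ℕ) (x : X.H) (y : Y.H), x ∈ X.piece p q → y ∈ Y.piece p q →
      D.act (π k) (D.act c (D.act (π k) (x, y))) = 0 := by
    intro p q x y hx hy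
    rw [hπ.2 k p q x y hx hy]
    by_cases hk : p + q = k
    · rw [if_pos hk]
      obtain ⟨h1, h2⟩ := D.act_mem hc hx hy
      by_cases hneg : (p : ℤ) + r < 0 ∨ (q : ℤ) + r < 0
      · rw [h2 hneg, map_zero]
      · push Not at hneg
        obtain ⟨p', hp'⟩ := Int.eq_ofNat_of_zero_le hneg.1
        obtain ⟨q', hq'⟩ := Int.eq_ofNat_of_zero_le hneg.2
        obtain ⟨h3, h4⟩ := h1 p' q' hp'.symm hq'.symm
        have h5 := hπ.2 k p' q' _ _ h3 h4
        rw [Prod.mk.eta] at h5
        rw [h5, if_neg (by omega)]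
    · rw [if_neg hk, map_zero, map_zero]
  refine ind2 (P := fun z => D.act (π k) (D.act c (D.act (π k) z)) = 0) ?_ ?_ ?_ z
  · intro z w hz hw
    simp only [map_add, hz, hw, add_zero]
  · intro p q x hx
    exact key p q x 0 hx (Submodule.zero_mem _)
  · intro p q y hy
    exact key p q 0 y (Submodule.zero_mem _) hy

/-- The component of degree zero. -/
theorem exists_zero (hπ : IsKun D π) (c : D.C) : ∃ c₀ ∈ D.deg 0, ∀ k z,
    D.act (π k) (D.act c (D.act (π k) z)) = D.act (π k) (D.act c₀ (D.act (π k) z)) := by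
  have hc : c ∈ ⨆ r, D.deg r := by
    rw [D.deg_top]
    trivial
  refine Submodule.iSup_induction D.deg (motive := fun c => ∃ c₀ ∈ D.deg 0, ∀ k z,
    D.act (π k) (D.act c (D.act (π k) z)) = D.act (π k) (D.act c₀ (D.act (π k) z))) hc
    ?_ ?_ ?_
  · intro r c hc
    by_cases hr : r = 0
    · subst hr
      exact ⟨c, hc, fun k z => rfl⟩
    · refine ⟨0, Submodule.zero_mem _, fun k z => ?_⟩
      rw [kun_ne hπ hr hc]
      simp
  · exact ⟨0, Submodule.zero_mem _, fun k z => rfl⟩
  · rintro a b ⟨a₀, ha₀, ha⟩ ⟨b₀, hb₀, hb⟩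
    refine ⟨a₀ + b₀, Submodule.add_mem _ ha₀ hb₀, fun k z => ?_⟩
    simp only [map_add, LinearMap.add_apply, ha, hb]

/-- A central idempotent. -/
structure IsCentral (D : Corr X Y) (e : Module.End ℂ (X.H × Y.H)) : Prop where
  mem : ∃ c : D.C, D.act c = e
  idem : ∀ z, e (e z) = e z
  comm : ∀ (c : D.C) z, e (D.act c z) = D.act c (e z)

variable {e : Module.End ℂ (X.H × Y.H)}

/-- The part of `e` on the cohomology of the first variety. -/
def fst (e : Module.End ℂ (X.H × Y.H)) : Module.End ℂ X.H :=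
  LinearMap.fst ℂ X.H Y.H ∘ₗ e ∘ₗ LinearMap.inl ℂ X.H Y.H

/-- The part of `e` on the cohomology of the second variety. -/
def snd (e : Module.End ℂ (X.H × Y.H)) : Module.End ℂ Y.H :=
  LinearMap.snd ℂ X.H Y.H ∘ₗ e ∘ₗ LinearMap.inr ℂ X.H Y.H

theorem IsCentral.inl (he : IsCentral D e) (x : X.H) : e (x, 0) = (fst e x, 0) := by
  have h := he.comm D.dX (x, 0)
  rw [D.act_dX, D.act_dX] at h
  exact h

theorem IsCentral.inr (he : IsCentral D e) (y : Y.H) : e (0, y) = (0, snd e y) := by
  have h := he.comm D.dY (0, y)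
  rw [D.act_dY, D.act_dY] at h
  exact h

theorem IsCentral.piece (hπ : IsKun D π) (he : IsCentral D e) {p q : ℕ} {x : X.H} {y : Y.H}
    (hx : x ∈ X.piece p q) (hy : y ∈ Y.piece p q) :
    (e (x, y)).1 ∈ X.piece p q ∧ (e (x, y)).2 ∈ Y.piece p q := by
  obtain ⟨c, hc⟩ := he.mem
  obtain ⟨c₀, hc₀, h0⟩ := exists_zero hπ c
  have h1 : D.act (π (p + q)) (x, y) = (x, y) := by rw [hπ.2 (p + q) p q x y hx hy, if_pos rfl]
  have h2 : e (x, y) = D.act (π (p + q)) (D.act c₀ (x, y)) := by
    have h3 := h0 (p + q) (x, y)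
    rw [h1, hc, ← he.comm, h1] at h3
    exact h3
  obtain ⟨h4, h5⟩ := D.act_zero_mem hc₀ hx hy
  have h6 := hπ.2 (p + q) p q _ _ h4 h5
  rw [Prod.mk.eta, if_pos rfl] at h6
  rw [h2, h6]
  exact ⟨h4, h5⟩

theorem IsCentral.compat_fst (hπ : IsKun D π) (he : IsCentral D e) : Compat X (fst e) where
  mem := fun {p q x} hx => by
    have := (he.piece hπ hx (Submodule.zero_mem (Y.piece p q))).1
    rwa [he.inl] at this
  lef := fun x => by
    have h := he.comm D.lef (x, 0)
    rw [D.lef_act, he.inl, D.lef_act] at h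
    simp only [map_zero] at h
    rw [he.inl] at h
    exact congrArg Prod.fst h
  chern := fun x => by
    have h := he.comm D.chern (x, 0)
    rw [D.chern_act, he.inl, D.chern_act] at h
    simp only [map_zero] at h
    rw [he.inl] at h
    exact congrArg Prod.fst h
  idem := fun x => by
    have h := he.idem (x, 0)
    rw [he.inl, he.inl] at h
    exact (Prod.ext_iff.1 h).1

theorem IsCentral.compat_snd (hπ : IsKun D π) (he : IsCentral D e) : Compat Y (snd e) where
  mem := fun {p q y} hy => by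
    have := (he.piece hπ (Submodule.zero_mem (X.piece p q)) hy).2
    rwa [he.inr] at this
  lef := fun x => by
    have h := he.comm D.lef (0, x)
    rw [D.lef_act, he.inr, D.lef_act] at h
    simp only [map_zero] at h
    rw [he.inr] at h
    exact congrArg Prod.snd h
  chern := fun x => by
    have h := he.comm D.chern (0, x)
    rw [D.chern_act, he.inr, D.chern_act] at h
    simp only [map_zero] at h
    rw [he.inr] at h
    exact congrArg Prod.snd h
  idem := fun x => by
    have h := he.idem (0, x)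
    rw [he.inr, he.inr] at h
    exact (Prod.ext_iff.1 h).2

theorem finrank_iSup_fin {ι V : Type*} [AddCommGroup V] [Module ℂ V] [FiniteDimensional ℂ V]
    (A : ι → Submodule ℂ V) (hA : iSupIndep A) (s : Finset ι) :
    finrank ℂ (⨆ i ∈ s, A i : Submodule ℂ V) = ∑ i ∈ s, finrank ℂ (A i) := by
  classical
  induction s using Finset.induction_on with
  | empty => simp
  | insert a s ha ih =>
    rw [Finset.iSup_insert, Finset.sum_insert ha, ← ih]
    have hd : Disjoint (A a) (⨆ i ∈ s, A i) := by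
      have := hA.disjoint_biSup (x := a) (y := (s : Set ι)) (by simpa using ha)
      simpa using this
    have h1 := Submodule.finrank_sup_add_finrank_inf_eq (A a) (⨆ i ∈ s, A i)
    rw [hd.eq_bot, finrank_bot, add_zero] at h1
    exact h1

theorem finrank_biSup {Z : Twisted n} (s : Finset (ℕ × ℕ)) :
    finrank ℂ (⨆ i ∈ s, Z.piece i.1 i.2 : Submodule ℂ Z.H) =
      ∑ i ∈ s, Z.hodgeNumber i.1 i.2 :=
  finrank_iSup_fin (fun i : ℕ × ℕ => Z.piece i.1 i.2) Z.internal.submodule_iSupIndep s

theorem trace_fst (hπ : IsKun D π) (he : IsCentral D e) (k : ℕ) :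
    LinearMap.trace ℂ (X.H × Y.H) (e * D.act (π k * D.dX)) =
      ((∑ i ∈ antidiagonal k, (sub (he.compat_fst hπ)).hodgeNumber i.1 i.2 : ℕ) : ℂ) := by
  have hc := he.compat_fst hπ
  have hT : ∀ z, (e * D.act (π k * D.dX)) z = e (D.act (π k) (z.1, 0)) := by
    intro z
    rw [Module.End.mul_apply, map_mul, Module.End.mul_apply, D.act_dX]
  have hpiece : ∀ (p q : ℕ) (x : X.H), x ∈ X.piece p q →
      e (D.act (π k) (x, 0)) = if p + q = k then (fst e x, 0) else 0 := by
    intro p q x hx
    rw [hπ.2 k p q x 0 hx (Submodule.zero_mem _)]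
    split_ifs with h
    · exact he.inl x
    · exact map_zero e
  let J : (sub hc).H →ₗ[ℂ] X.H × Y.H := LinearMap.inl ℂ X.H Y.H ∘ₗ incl hc
  have hJ : Function.Injective J := fun a b hab => Subtype.ext (congrArg Prod.fst hab)
  have hrange : LinearMap.range (e * D.act (π k * D.dX)) =
      (⨆ i ∈ antidiagonal k, (sub hc).piece i.1 i.2).map J := by
    apply le_antisymm
    · rintro _ ⟨z, rfl⟩
      rw [hT]
      refine X.ind (P := fun x => e (D.act (π k) (x, 0)) ∈
        (⨆ i ∈ antidiagonal k, (sub hc).piece i.1 i.2).map J) ?_ ?_ ?_ z.1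
      · have : ((0 : X.H), (0 : Y.H)) = 0 := rfl
        rw [this, map_zero, map_zero]
        exact Submodule.zero_mem _
      · intro x y hx hy
        have : ((x + y : X.H), (0 : Y.H)) = (x, 0) + (y, 0) := by
          rw [Prod.mk_add_mk, add_zero]
        rw [this, map_add, map_add]
        exact Submodule.add_mem _ hx hy
      · intro p q x hx
        rw [hpiece p q x hx]
        split_ifs with h
        · refine ⟨(⟨fst e x, ⟨x, rfl⟩⟩ : LinearMap.range (fst e)), ?_, rfl⟩
          have h1 : (p, q) ∈ antidiagonal k := mem_antidiagonal.2 h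
          exact (le_iSup₂ (f := fun (i : ℕ × ℕ) (_ : i ∈ antidiagonal k) =>
            (sub hc).piece i.1 i.2) (p, q) h1) (hc.mem hx)
        · exact Submodule.zero_mem _
    · rw [Submodule.map_le_iff_le_comap]
      refine iSup₂_le fun i hi => ?_
      intro x hx
      have hx' : (incl hc x) ∈ X.piece i.1 i.2 := hx
      refine ⟨(incl hc x, 0), ?_⟩
      rw [hT, hpiece i.1 i.2 _ hx', if_pos (mem_antidiagonal.1 hi)]
      have h1 : fst e (incl hc x) = incl hc x := hc.fix (show LinearMap.range (fst e) from x).2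
      rw [h1]
      rfl
  have hidem : (e * D.act (π k * D.dX)) * (e * D.act (π k * D.dX)) =
      e * D.act (π k * D.dX) := by
    refine LinearMap.ext fun z => ?_
    rw [Module.End.mul_apply, hT z]
    refine X.ind (P := fun x => (e * D.act (π k * D.dX)) (e (D.act (π k) (x, 0))) =
      e (D.act (π k) (x, 0))) ?_ ?_ ?_ z.1
    · have : ((0 : X.H), (0 : Y.H)) = 0 := rfl
      rw [this, map_zero, map_zero, map_zero]
    · intro x y hx hy
      have : ((x + y : X.H), (0 : Y.H)) = (x, 0) + (y, 0) := by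
        rw [Prod.mk_add_mk, add_zero]
      rw [this, map_add, map_add, map_add, hx, hy]
    · intro p q x hx
      rw [hpiece p q x hx]
      split_ifs with h
      · rw [hT, hpiece p q _ (hc.mem hx), if_pos h, hc.idem]
      · exact map_zero _
  rw [trace_idem hidem, hrange, ← finrank_biSup]
  congr 1
  exact (LinearEquiv.finrank_eq (Submodule.equivMapOfInjective J hJ _)).symm

theorem trace_snd (hπ : IsKun D π) (he : IsCentral D e) (k : ℕ) :
    LinearMap.trace ℂ (X.H × Y.H) (e * D.act (π k * D.dY)) =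
      ((∑ i ∈ antidiagonal k, (sub (he.compat_snd hπ)).hodgeNumber i.1 i.2 : ℕ) : ℂ) := by
  have hc := he.compat_snd hπ
  have hT : ∀ z, (e * D.act (π k * D.dY)) z = e (D.act (π k) (0, z.2)) := by
    intro z
    rw [Module.End.mul_apply, map_mul, Module.End.mul_apply, D.act_dY]
  have hpiece : ∀ (p q : ℕ) (x : Y.H), x ∈ Y.piece p q →
      e (D.act (π k) (0, x)) = if p + q = k then (0, snd e x) else 0 := by
    intro p q x hx
    rw [hπ.2 k p q 0 x (Submodule.zero_mem _) hx]
    split_ifs with h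
    · exact he.inr x
    · exact map_zero e
  let J : (sub hc).H →ₗ[ℂ] X.H × Y.H := LinearMap.inr ℂ X.H Y.H ∘ₗ incl hc
  have hJ : Function.Injective J := fun a b hab => Subtype.ext (congrArg Prod.snd hab)
  have hrange : LinearMap.range (e * D.act (π k * D.dY)) =
      (⨆ i ∈ antidiagonal k, (sub hc).piece i.1 i.2).map J := by
    apply le_antisymm
    · rintro _ ⟨z, rfl⟩
      rw [hT]
      refine Y.ind (P := fun x => e (D.act (π k) (0, x)) ∈
        (⨆ i ∈ antidiagonal k, (sub hc).piece i.1 i.2).map J) ?_ ?_ ?_ z.2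
      · have : ((0 : X.H), (0 : Y.H)) = 0 := rfl
        rw [this, map_zero, map_zero]
        exact Submodule.zero_mem _
      · intro x y hx hy
        have : ((0 : X.H), (x + y : Y.H)) = (0, x) + (0, y) := by
          rw [Prod.mk_add_mk, add_zero]
        rw [this, map_add, map_add]
        exact Submodule.add_mem _ hx hy
      · intro p q x hx
        rw [hpiece p q x hx]
        split_ifs with h
        · refine ⟨(⟨snd e x, ⟨x, rfl⟩⟩ : LinearMap.range (snd e)), ?_, rfl⟩
          have h1 : (p, q) ∈ antidiagonal k := mem_antidiagonal.2 h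
          exact (le_iSup₂ (f := fun (i : ℕ × ℕ) (_ : i ∈ antidiagonal k) =>
            (sub hc).piece i.1 i.2) (p, q) h1) (hc.mem hx)
        · exact Submodule.zero_mem _
    · rw [Submodule.map_le_iff_le_comap]
      refine iSup₂_le fun i hi => ?_
      intro x hx
      have hx' : (incl hc x) ∈ Y.piece i.1 i.2 := hx
      refine ⟨(0, incl hc x), ?_⟩
      rw [hT, hpiece i.1 i.2 _ hx', if_pos (mem_antidiagonal.1 hi)]
      have h1 : snd e (incl hc x) = incl hc x := hc.fix (show LinearMap.range (snd e) from x).2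
      rw [h1]
      rfl
  have hidem : (e * D.act (π k * D.dY)) * (e * D.act (π k * D.dY)) =
      e * D.act (π k * D.dY) := by
    refine LinearMap.ext fun z => ?_
    rw [Module.End.mul_apply, hT z]
    refine Y.ind (P := fun x => (e * D.act (π k * D.dY)) (e (D.act (π k) (0, x))) =
      e (D.act (π k) (0, x))) ?_ ?_ ?_ z.2
    · have : ((0 : X.H), (0 : Y.H)) = 0 := rfl
      rw [this, map_zero, map_zero, map_zero]
    · intro x y hx hy
      have : ((0 : X.H), (x + y : Y.H)) = (0, x) + (0, y) := by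
        rw [Prod.mk_add_mk, add_zero]
      rw [this, map_add, map_add, map_add, hx, hy]
    · intro p q x hx
      rw [hpiece p q x hx]
      split_ifs with h
      · rw [hT, hpiece p q _ (hc.mem hx), if_pos h, hc.idem]
      · exact map_zero _
  rw [trace_idem hidem, hrange, ← finrank_biSup]
  congr 1
  exact (LinearEquiv.finrank_eq (Submodule.equivMapOfInjective J hJ _)).symm

end Pool.Agent.R929.OC
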