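import Pool.Agent.R929.OC.Trans

/-!
# Algebraic correspondences of two varieties and their action on the cohomology
-/

namespace Pool.Agent.R929.OC

open Module Finset Pool.Agent.TH125.Tw

/-- The algebra of correspondences with rational coefficients of the disjoint union `Z` of two
smooth projective complex varieties `X` and `Y` of dimension `n`:

* `C`: the Chow group `CH^*(Z × Z) ⊗ ℚ` with the composition of correspondences;
* `deg r`: the correspondences of degree `r`, the group `CH^{n+r}(Z × Z) ⊗ ℚ`; those of degree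
  zero are the endomorphisms of the Chow motive of `Z`;
* `dX`, `dY`: the diagonals of the two varieties. -/
structure CorrAlg where
  C : Type
  [ring : Ring C]
  [alg : Algebra ℚ C]
  deg : ℤ → Submodule ℚ C
  deg_top : ⨆ r, deg r = ⊤
  deg_mul : ∀ {r s : ℤ} {a b : C}, a ∈ deg r → b ∈ deg s → a * b ∈ deg (r + s)
  dX : C
  dY : C
  dX_mem : dX ∈ deg 0
  dY_mem : dY ∈ deg 0
  dX_idem : dX * dX = dX
  dY_idem : dY * dY = dY
  d_add : dX + dY = 1

attribute [instance] CorrAlg.ring CorrAlg.alg

/-- The algebra of correspondences with an action `act` on the cohomology of `Z = X ⊔ Y`. -/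
structure CorrAct {n : ℕ} (X Y : Twisted n) extends CorrAlg where
  act : C →+* Module.End ℂ (X.H × Y.H)

variable {n : ℕ} {X Y : Twisted n}

/-- The action of the correspondence `c` on the class `z`. -/
def CorrAct.on (D : CorrAct X Y) (c : D.C) (z : X.H × Y.H) : X.H × Y.H := D.act c z

/-- The correspondence `c` shifts the Hodge types by `(r, r)`. -/
def CorrAct.Shifts (D : CorrAct X Y) (r : ℤ) (c : D.C) : Prop :=
  ∀ (p q : ℕ) (x : X.H) (y : Y.H), x ∈ X.piece p q → y ∈ Y.piece p q →
    (∀ p' q' : ℕ, (p' : ℤ) = p + r → (q' : ℤ) = q + r →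
      (D.on c (x, y)).1 ∈ X.piece p' q' ∧ (D.on c (x, y)).2 ∈ Y.piece p' q') ∧
    ((p : ℤ) + r < 0 ∨ (q : ℤ) + r < 0 → D.on c (x, y) = 0)

/-- The image of the algebra of correspondences: the correspondences modulo homological
equivalence. -/
def CorrAct.image (D : CorrAct X Y) : Subring (Module.End ℂ (X.H × Y.H)) := D.act.range

/-- The algebra of correspondences with rational coefficients of the disjoint union `Z` of two
smooth projective complex varieties of dimension `n` whose cohomologies are `X` and `Y`, with its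
action on the cohomology of `Z` with complex coefficients:

* the diagonals of `X` and `Y` act by the two projections;
* correspondences of degree `r` shift the Hodge types by `(r, r)`;
* `lef`, `chern`: the correspondences (cycles on the diagonals) which act by the product with the
  class of an ample divisor and with the first Chern class. -/
structure Corr (X Y : Twisted n) extends CorrAct X Y where
  lef : C
  chern : C
  on_dX : ∀ z, toCorrAct.on dX z = (z.1, 0)
  on_dY : ∀ z, toCorrAct.on dY z = (0, z.2)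
  shifts : ∀ (r : ℤ) (c : C), c ∈ deg r → toCorrAct.Shifts r c
  on_lef : ∀ z, toCorrAct.on lef z = (X.lef z.1, Y.lef z.2)
  on_chern : ∀ z, toCorrAct.on chern z = (X.chern z.1, Y.chern z.2)

/-- The Künneth projectors of the cohomology of `Z` are algebraic (the standard conjecture of
Künneth type). -/
def Kunneth (D : Corr X Y) : Prop :=
  ∀ k : ℕ, ∃ π ∈ D.deg 0, ∀ (p q : ℕ) (x : X.H) (y : Y.H), x ∈ X.piece p q → y ∈ Y.piece p q →
    D.on π (x, y) = if p + q = k then (x, y) else 0

/-- Endomorphisms of the Chow motive of `Z` which act trivially on the cohomology are nilpotent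
(this holds if the motives are finite dimensional in the sense of Kimura and O'Sullivan). -/
def Nilpotence (D : Corr X Y) : Prop := ∀ c ∈ D.deg 0, (∀ z, D.on c z = 0) → IsNilpotent c

/-- The algebra of correspondences modulo homological equivalence is semisimple (by Jannsen this
holds if homological and numerical equivalence coincide). -/
def Semisimple (D : Corr X Y) : Prop := IsSemisimpleRing D.image

/-- The correspondences `φ` and `ψ` given by the Mukai vectors of the kernels of an equivalence
`D(X) ≃ D(Y)` and of its inverse. -/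
structure Equivalence (D : Corr X Y) where
  φ : D.C
  ψ : D.C
  φ_mem : φ = D.dY * φ * D.dX
  ψ_mem : ψ = D.dX * ψ * D.dY
  ψφ : ψ * φ = D.dX
  φψ : φ * ψ = D.dY
  /-- the induced map on the cohomology preserves the Mukai pairings -/
  Φ : Transform X Y
  on_φ : ∀ x, D.on φ (x, 0) = (0, Φ.map x)

/-- `u` and `v` induce inverse isomorphisms of the cohomology groups of degree `j`. -/
def InverseOn (D : Corr X Y) (j : ℕ) (u v : D.C) : Prop :=
  (∀ (p q : ℕ) (x : X.H), p + q = j → x ∈ X.piece p q → D.on (v * u) (x, 0) = (x, 0)) ∧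
    (∀ (p q : ℕ) (y : Y.H), p + q = j → y ∈ Y.piece p q → D.on (u * v) (0, y) = (0, y))

/-- There are correspondences of degree zero which induce inverse isomorphisms of the cohomology
groups of degree `j`. -/
def IsoOn (D : Corr X Y) (j : ℕ) : Prop :=
  ∃ u ∈ D.deg 0, ∃ v ∈ D.deg 0, u = D.dY * u * D.dX ∧ v = D.dX * v * D.dY ∧ InverseOn D j u v

/-- The Chow motives of the two varieties are isomorphic. -/
def MotivesIsomorphic (D : Corr X Y) : Prop :=
  ∃ a ∈ D.deg 0, ∃ b ∈ D.deg 0, a = D.dY * a * D.dX ∧ b = D.dX * b * D.dY ∧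
    b * a = D.dX ∧ a * b = D.dY

namespace Corr

variable (D : Corr X Y)

theorem act_dX : ∀ z, D.act D.dX z = (z.1, 0) := D.on_dX

theorem act_dY : ∀ z, D.act D.dY z = (0, z.2) := D.on_dY

theorem lef_act : ∀ z, D.act D.lef z = (X.lef z.1, Y.lef z.2) := D.on_lef

theorem chern_act : ∀ z, D.act D.chern z = (X.chern z.1, Y.chern z.2) := D.on_chern

theorem act_mem {r : ℤ} {c : D.C} (hc : c ∈ D.deg r) {p q : ℕ} {x : X.H} {y : Y.H}
    (hx : x ∈ X.piece p q) (hy : y ∈ Y.piece p q) :
      (∀ p' q' : ℕ, (p' : ℤ) = p + r → (q' : ℤ) = q + r →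
        (D.act c (x, y)).1 ∈ X.piece p' q' ∧ (D.act c (x, y)).2 ∈ Y.piece p' q') ∧
      ((p : ℤ) + r < 0 ∨ (q : ℤ) + r < 0 → D.act c (x, y) = 0) :=
  D.shifts r c hc p q x y hx hy

end Corr

theorem Kunneth.act {D : Corr X Y} (h : Kunneth D) : ∀ k : ℕ, ∃ π ∈ D.deg 0,
    ∀ (p q : ℕ) (x : X.H) (y : Y.H), x ∈ X.piece p q → y ∈ Y.piece p q →
      D.act π (x, y) = if p + q = k then (x, y) else 0 := h

theorem Nilpotence.act {D : Corr X Y} (h : Nilpotence D) (c : D.C) (hc : c ∈ D.deg 0)
    (h0 : D.act c = 0) : IsNilpotent c :=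
  h c hc fun z => by
    show D.act c z = 0
    rw [h0]
    rfl

theorem IsoOn.act {D : Corr X Y} {j : ℕ} (h : IsoOn D j) :
    ∃ u ∈ D.deg 0, ∃ v ∈ D.deg 0, u = D.dY * u * D.dX ∧ v = D.dX * v * D.dY ∧
    (∀ (p q : ℕ) (x : X.H), p + q = j → x ∈ X.piece p q → D.act (v * u) (x, 0) = (x, 0)) ∧
    (∀ (p q : ℕ) (y : Y.H), p + q = j → y ∈ Y.piece p q → D.act (u * v) (0, y) = (0, y)) := h

theorem Equivalence.act_φ {D : Corr X Y} (Ψ : Equivalence D) (x : X.H) :
    D.act Ψ.φ (x, 0) = (0, Ψ.Φ.map x) := Ψ.on_φ x

end Pool.Agent.R929.OC
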