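import Pool.Agent.R929.OC.Lift

/-!
# Threefolds and fourfolds
-/

namespace Pool.Agent.R929.OC

open Module Finset Pool.Agent.TH125.Tw

/-- The Hodge numbers of derived equivalent varieties of dimension four. -/
theorem four_numbers {X Y : Twisted 4} (T : Transform X Y)
    (h00 : X.hodgeNumber 0 0 = Y.hodgeNumber 0 0) (h10 : X.hodgeNumber 1 0 = Y.hodgeNumber 1 0)
    (h01 : X.hodgeNumber 0 1 = Y.hodgeNumber 0 1) (p q : ℕ) :
    X.hodgeNumber p q = Y.hodgeNumber p q := by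
  by_cases hpq : 4 < p ∨ 4 < q
  · rw [X.hodge_large hpq, Y.hodge_large hpq]
  push Not at hpq
  obtain ⟨a1, a2⟩ := relations T (p := 2) (q := 2) rfl
  obtain ⟨b1, b2⟩ := relations T (p := 3) (q := 1) rfl
  obtain ⟨c1, c2⟩ := relations T (p := 1) (q := 3) rfl
  obtain ⟨-, d2⟩ := relations T (p := 4) (q := 0) rfl
  obtain ⟨-, e2⟩ := relations T (p := 0) (q := 4) rfl
  have o22 : ∀ Z : Twisted 4, Z.oddDiagonal 2 2 = Z.hodgeNumber 1 1 := fun Z => by
    simp [Twisted.oddDiagonal, Finset.sum_filter, Finset.sum_range_succ]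
  have e22 : ∀ Z : Twisted 4, Z.evenDiagonal 2 2 = Z.hodgeNumber 0 0 := fun Z => by
    simp [Twisted.evenDiagonal, Finset.sum_filter, Finset.sum_range_succ]
  have o31 : ∀ Z : Twisted 4, Z.oddDiagonal 3 1 = Z.hodgeNumber 2 0 := fun Z => by
    simp [Twisted.oddDiagonal, Finset.sum_filter, Finset.sum_range_succ]
  have e31 : ∀ Z : Twisted 4, Z.evenDiagonal 3 1 = 0 := fun Z => by
    simp [Twisted.evenDiagonal, Finset.sum_filter, Finset.sum_range_succ]
  have o13 : ∀ Z : Twisted 4, Z.oddDiagonal 1 3 = Z.hodgeNumber 0 2 := fun Z => by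
    simp [Twisted.oddDiagonal, Finset.sum_filter, Finset.sum_range_succ]
  have e13 : ∀ Z : Twisted 4, Z.evenDiagonal 1 3 = 0 := fun Z => by
    simp [Twisted.evenDiagonal, Finset.sum_filter, Finset.sum_range_succ]
  have e40 : ∀ Z : Twisted 4, Z.evenDiagonal 4 0 = 0 := fun Z => by
    simp [Twisted.evenDiagonal, Finset.sum_filter, Finset.sum_range_succ]
  have e04 : ∀ Z : Twisted 4, Z.evenDiagonal 0 4 = 0 := fun Z => by
    simp [Twisted.evenDiagonal, Finset.sum_filter, Finset.sum_range_succ]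
  rw [o22, o22] at a1
  rw [e22, e22] at a2
  rw [o31, o31] at b1
  rw [e31, e31] at b2
  rw [o13, o13] at c1
  rw [e13, e13] at c2
  rw [e40, e40] at d2
  rw [e04, e04] at e2
  have f1 := column_sum T (a := 1) (b := 0) (t := 3) (Or.inr rfl) rfl
  have f2 := column_sum T (a := 0) (b := 1) (t := 3) (Or.inl rfl) rfl
  have f3 := column_sum T (a := 3) (b := 0) (t := 1) (Or.inr rfl) rfl
  have f4 := column_sum T (a := 0) (b := 3) (t := 1) (Or.inl rfl) rfl
  simp only [Finset.sum_range_succ, Finset.sum_range_zero] at f1 f2 f3 f4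
  norm_num at f1 f2 f3 f4
  have sym : ∀ (Z : Twisted 4) (p q p' q' : ℕ), p + q' = 4 → q + p' = 4 →
      Z.hodgeNumber p q = Z.hodgeNumber p' q' := fun Z p q p' q' h1 h2 => Z.dim_eq h1 h2
  have x43 := sym X 4 3 1 0 rfl rfl
  have y43 := sym Y 4 3 1 0 rfl rfl
  have x32 := sym X 3 2 2 1 rfl rfl
  have y32 := sym Y 3 2 2 1 rfl rfl
  have x34 := sym X 3 4 0 1 rfl rfl
  have y34 := sym Y 3 4 0 1 rfl rfl
  have x23 := sym X 2 3 1 2 rfl rfl
  have y23 := sym Y 2 3 1 2 rfl rfl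
  have x41 := sym X 4 1 3 0 rfl rfl
  have y41 := sym Y 4 1 3 0 rfl rfl
  have x14 := sym X 1 4 0 3 rfl rfl
  have y14 := sym Y 1 4 0 3 rfl rfl
  have x33 := sym X 3 3 1 1 rfl rfl
  have y33 := sym Y 3 3 1 1 rfl rfl
  have x44 := sym X 4 4 0 0 rfl rfl
  have y44 := sym Y 4 4 0 0 rfl rfl
  have x42 := sym X 4 2 2 0 rfl rfl
  have y42 := sym Y 4 2 2 0 rfl rfl
  have x24 := sym X 2 4 0 2 rfl rfl
  have y24 := sym Y 2 4 0 2 rfl rfl
  obtain ⟨hp, hq⟩ := hpq
  interval_cases p <;> interval_cases q <;> omega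

/-- The Hodge numbers of derived equivalent varieties of dimension three. -/
theorem three_numbers {X Y : Twisted 3} (T : Transform X Y)
    (h00 : X.hodgeNumber 0 0 = Y.hodgeNumber 0 0) (p q : ℕ) :
    X.hodgeNumber p q = Y.hodgeNumber p q := by
  by_cases hpq : 3 < p ∨ 3 < q
  · rw [X.hodge_large hpq, Y.hodge_large hpq]
  push Not at hpq
  obtain ⟨a1, a2⟩ := relations T (p := 2) (q := 1) rfl
  obtain ⟨b1, b2⟩ := relations T (p := 1) (q := 2) rfl
  obtain ⟨-, d2⟩ := relations T (p := 3) (q := 0) rfl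
  obtain ⟨-, e2⟩ := relations T (p := 0) (q := 3) rfl
  have o21 : ∀ Z : Twisted 3, Z.oddDiagonal 2 1 = Z.hodgeNumber 1 0 := fun Z => by
    simp [Twisted.oddDiagonal, Finset.sum_filter, Finset.sum_range_succ]
  have e21 : ∀ Z : Twisted 3, Z.evenDiagonal 2 1 = 0 := fun Z => by
    simp [Twisted.evenDiagonal, Finset.sum_filter, Finset.sum_range_succ]
  have o12 : ∀ Z : Twisted 3, Z.oddDiagonal 1 2 = Z.hodgeNumber 0 1 := fun Z => by
    simp [Twisted.oddDiagonal, Finset.sum_filter, Finset.sum_range_succ]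
  have e12 : ∀ Z : Twisted 3, Z.evenDiagonal 1 2 = 0 := fun Z => by
    simp [Twisted.evenDiagonal, Finset.sum_filter, Finset.sum_range_succ]
  have e30 : ∀ Z : Twisted 3, Z.evenDiagonal 3 0 = 0 := fun Z => by
    simp [Twisted.evenDiagonal, Finset.sum_filter, Finset.sum_range_succ]
  have e03 : ∀ Z : Twisted 3, Z.evenDiagonal 0 3 = 0 := fun Z => by
    simp [Twisted.evenDiagonal, Finset.sum_filter, Finset.sum_range_succ]
  rw [o21, o21] at a1
  rw [e21, e21] at a2
  rw [o12, o12] at b1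
  rw [e12, e12] at b2
  rw [e30, e30] at d2
  rw [e03, e03] at e2
  have f0 := column_sum T (a := 0) (b := 0) (t := 3) (Or.inr rfl) rfl
  have f1 := column_sum T (a := 2) (b := 0) (t := 1) (Or.inr rfl) rfl
  have f2 := column_sum T (a := 0) (b := 2) (t := 1) (Or.inl rfl) rfl
  simp only [Finset.sum_range_succ, Finset.sum_range_zero] at f0 f1 f2
  norm_num at f0 f1 f2
  have sym : ∀ (Z : Twisted 3) (p q p' q' : ℕ), p + q' = 3 → q + p' = 3 →
      Z.hodgeNumber p q = Z.hodgeNumber p' q' := fun Z p q p' q' h1 h2 => Z.dim_eq h1 h2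
  have x33 := sym X 3 3 0 0 rfl rfl
  have y33 := sym Y 3 3 0 0 rfl rfl
  have x22 := sym X 2 2 1 1 rfl rfl
  have y22 := sym Y 2 2 1 1 rfl rfl
  have x32 := sym X 3 2 1 0 rfl rfl
  have y32 := sym Y 3 2 1 0 rfl rfl
  have x23 := sym X 2 3 0 1 rfl rfl
  have y23 := sym Y 2 3 0 1 rfl rfl
  have x31 := sym X 3 1 2 0 rfl rfl
  have y31 := sym Y 3 1 2 0 rfl rfl
  have x13 := sym X 1 3 0 2 rfl rfl
  have y13 := sym Y 1 3 0 2 rfl rfl
  obtain ⟨hp, hq⟩ := hpq
  interval_cases p <;> interval_cases q <;> omega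

section

variable {n : ℕ} {X Y : Twisted n} {D : Corr X Y} {π : ℕ → D.C}
  {e : Module.End ℂ (X.H × Y.H)}

theorem commutes (he : IsCentral D e) (Ψ : Equivalence D) (x : X.H) :
    Ψ.Φ.map (fst e x) = snd e (Ψ.Φ.map x) := by
  have h := he.comm Ψ.φ (x, 0)
  rw [Ψ.act_φ, he.inr, he.inl, Ψ.act_φ] at h
  exact (Prod.ext_iff.1 h).2.symm

/-- Isomorphisms on a cohomology group. -/
theorem iso_le (hπ : IsKun D π) (he : IsCentral D e) {j : ℕ} (h : IsoOn D j) {p q : ℕ}
    (hpq : p + q = j) : (sub (he.compat_fst hπ)).hodgeNumber p q =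
      (sub (he.compat_snd hπ)).hodgeNumber p q := by
  obtain ⟨u, hu, v, hv, hu2, hv2, hvu, huv⟩ := h.act
  rw [sub_hodgeNumber, sub_hodgeNumber]
  let u' : X.H →ₗ[ℂ] Y.H := LinearMap.snd ℂ X.H Y.H ∘ₗ D.act u ∘ₗ LinearMap.inl ℂ X.H Y.H
  let v' : Y.H →ₗ[ℂ] X.H := LinearMap.fst ℂ X.H Y.H ∘ₗ D.act v ∘ₗ LinearMap.inr ℂ X.H Y.H
  have hu' : ∀ x, D.act u (x, 0) = (0, u' x) := by
    intro x
    have h1 : D.act u (x, 0) = D.act (D.dY * u * D.dX) (x, 0) := by rw [← hu2]
    rw [map_mul, map_mul, Module.End.mul_apply, Module.End.mul_apply, D.act_dX, D.act_dY] at h1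
    exact h1
  have hv' : ∀ y, D.act v (0, y) = (v' y, 0) := by
    intro y
    have h1 : D.act v (0, y) = D.act (D.dX * v * D.dY) (0, y) := by rw [← hv2]
    rw [map_mul, map_mul, Module.End.mul_apply, Module.End.mul_apply, D.act_dY, D.act_dX] at h1
    exact h1
  have hfu : ∀ x, snd e (u' x) = u' (fst e x) := by
    intro x
    have h1 := he.comm u (x, 0)
    rw [hu', he.inr, he.inl, hu'] at h1
    exact (Prod.ext_iff.1 h1).2
  have hfv : ∀ y, fst e (v' y) = v' (snd e y) := by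
    intro y
    have h1 := he.comm v (0, y)
    rw [hv', he.inl, he.inr, hv'] at h1
    exact (Prod.ext_iff.1 h1).1
  apply le_antisymm
  · let R : (LinearMap.range (fst e) ⊓ X.piece p q : Submodule ℂ X.H) →ₗ[ℂ]
        (LinearMap.range (snd e) ⊓ Y.piece p q : Submodule ℂ Y.H) := u'.restrict (by
      rintro x ⟨hx1, hx2⟩
      constructor
      · refine ⟨u' x, ?_⟩
        rw [hfu, (he.compat_fst hπ).fix hx1]
      · have h1 := (D.act_zero_mem hu hx2 (Submodule.zero_mem (Y.piece p q))).2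
        exact h1)
    refine LinearMap.finrank_le_finrank_of_injective (f := R) ?_
    rw [injective_iff_map_eq_zero]
    rintro ⟨x, hx1, hx2⟩ hx
    have h1 : u' x = 0 := congrArg Subtype.val hx
    have h2 := hvu p q x hpq hx2
    rw [map_mul, Module.End.mul_apply, hu', h1] at h2
    have h0 : ((0 : X.H), (0 : Y.H)) = 0 := rfl
    rw [h0, map_zero] at h2
    exact Subtype.ext (Prod.ext_iff.1 h2).1.symm
  · let R : (LinearMap.range (snd e) ⊓ Y.piece p q : Submodule ℂ Y.H) →ₗ[ℂ]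
        (LinearMap.range (fst e) ⊓ X.piece p q : Submodule ℂ X.H) := v'.restrict (by
      rintro x ⟨hx1, hx2⟩
      constructor
      · refine ⟨v' x, ?_⟩
        rw [hfv, (he.compat_snd hπ).fix hx1]
      · have h1 := (D.act_zero_mem hv (Submodule.zero_mem (X.piece p q)) hx2).1
        exact h1)
    refine LinearMap.finrank_le_finrank_of_injective (f := R) ?_
    rw [injective_iff_map_eq_zero]
    rintro ⟨x, hx1, hx2⟩ hx
    have h1 : v' x = 0 := congrArg Subtype.val hx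
    have h2 := huv p q x hpq hx2
    rw [map_mul, Module.End.mul_apply, hv', h1] at h2
    have h0 : ((0 : X.H), (0 : Y.H)) = 0 := rfl
    rw [h0, map_zero] at h2
    exact Subtype.ext (Prod.ext_iff.1 h2).2.symm

end

/-- **Orlov's conjecture in dimension four.** -/
theorem fourfolds {X Y : Twisted 4} {D : Corr X Y} (hK : Kunneth D) (hN : Nilpotence D)
    (hS : Semisimple D) (Ψ : Equivalence D) (h0 : IsoOn D 0) (h1 : IsoOn D 1) :
    MotivesIsomorphic D := by
  obtain ⟨π, hπ⟩ := exists_kun D hK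
  refine motives_iso hπ hN hS fun e he p q => ?_
  exact four_numbers (subTransform (he.compat_fst hπ) (he.compat_snd hπ) Ψ.Φ (commutes he Ψ))
    (iso_le hπ he h0 rfl) (iso_le hπ he h1 rfl) (iso_le hπ he h1 rfl) p q

/-- **Orlov's conjecture in dimension three.** -/
theorem threefolds {X Y : Twisted 3} {D : Corr X Y} (hK : Kunneth D) (hN : Nilpotence D)
    (hS : Semisimple D) (Ψ : Equivalence D) (h0 : IsoOn D 0) : MotivesIsomorphic D := by
  obtain ⟨π, hπ⟩ := exists_kun D hK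
  refine motives_iso hπ hN hS fun e he p q => ?_
  exact three_numbers (subTransform (he.compat_fst hπ) (he.compat_snd hπ) Ψ.Φ (commutes he Ψ))
    (iso_le hπ he h0 rfl) p q

end Pool.Agent.R929.OC
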