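import Mathlib

/-!
# Idempotents of semisimple rings and traces
-/

open Module

namespace Pool.Agent.R929.OC

section ring

variable {E : Type*} [Ring E] [IsSemisimpleRing E]

/-- Semisimple rings are von Neumann regular. -/
theorem exists_regular (x : E) : ∃ y : E, x * y * x = x := by
  obtain ⟨J, hJ⟩ := exists_isCompl (Submodule.span E {x})
  have h1 : (1 : E) ∈ Submodule.span E {x} ⊔ J := by
    rw [hJ.sup_eq_top]
    trivial
  obtain ⟨f, hf, g, hg, hfg⟩ := Submodule.mem_sup.1 h1
  obtain ⟨y, rfl⟩ := Submodule.mem_span_singleton.1 hf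
  refine ⟨y, ?_⟩
  have h2 : x * g ∈ J := J.smul_mem x hg
  have h3 : x * g ∈ Submodule.span E {x} := by
    have e : x * g = x - x * (y • x) := by
      rw [eq_sub_iff_add_eq, add_comm, ← mul_add, hfg, mul_one]
    rw [e]
    refine Submodule.sub_mem _ (Submodule.mem_span_singleton_self x) ?_
    exact Submodule.smul_mem _ x hf
  have h4 : x * g ∈ Submodule.span E {x} ⊓ J := ⟨h3, h2⟩
  rw [hJ.inf_eq_bot, Submodule.mem_bot] at h4
  have h5 : x * (y • x) + x * g = x := by rw [← mul_add, hfg, mul_one]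
  rw [h4, add_zero, smul_eq_mul] at h5
  rw [mul_assoc]
  exact h5

/-- The left ideal generated by the elements `p y`. -/
def ideal (p : E) : Submodule E E := Submodule.span E (Set.range fun y => p * y)

omit [IsSemisimpleRing E] in
theorem mem_ideal (p : E) : p ∈ ideal p := Submodule.subset_span ⟨1, mul_one p⟩

omit [IsSemisimpleRing E] in
theorem ideal_mul (p : E) {x : E} (hx : x ∈ ideal p) (r : E) : x * r ∈ ideal p := by
  induction hx using Submodule.span_induction with
  | mem x hx =>
    obtain ⟨y, rfl⟩ := hx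
    show p * y * r ∈ ideal p
    exact Submodule.subset_span ⟨y * r, (mul_assoc _ _ _).symm⟩
  | zero => rw [zero_mul]; exact Submodule.zero_mem _
  | add x y _ _ hx hy => rw [add_mul]; exact Submodule.add_mem _ hx hy
  | smul a x _ hx =>
    rw [smul_eq_mul, mul_assoc]
    exact Submodule.smul_mem _ a hx

omit [IsSemisimpleRing E] in
theorem ideal_zero {p q : E} (h : ∀ r, q * r * p = 0) {x : E} (hx : x ∈ ideal p) :
    ∀ r, q * r * x = 0 := by
  induction hx using Submodule.span_induction with
  | mem x hx =>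
    obtain ⟨y, rfl⟩ := hx
    intro r
    show q * r * (p * y) = 0
    rw [← mul_assoc, h, zero_mul]
  | zero => intro r; rw [mul_zero]
  | add x y _ _ hx hy => intro r; rw [mul_add, hx, hy, add_zero]
  | smul a x _ hx =>
    intro r
    rw [smul_eq_mul, ← mul_assoc, mul_assoc q]
    exact hx (r * a)

/-- The two-sided ideal generated by `p` is generated by a central idempotent. -/
theorem exists_central (p : E) : ∃ e : E, e * e = e ∧ (∀ r, e * r = r * e) ∧ e * p = p ∧
    ∀ q : E, (∀ r, q * r * p = 0) → q * e = 0 := by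
  obtain ⟨J, hJ⟩ := exists_isCompl (ideal p)
  have h1 : (1 : E) ∈ ideal p ⊔ J := by
    rw [hJ.sup_eq_top]
    trivial
  obtain ⟨e, he, g, hg, heg⟩ := Submodule.mem_sup.1 h1
  have hright : ∀ x ∈ ideal p, x * e = x := by
    intro x hx
    have h2 : x * g ∈ J := J.smul_mem x hg
    have h3 : x * g ∈ ideal p := ideal_mul p hx g
    have h4 : x * g ∈ ideal p ⊓ J := ⟨h3, h2⟩
    rw [hJ.inf_eq_bot, Submodule.mem_bot] at h4
    have h5 : x * e + x * g = x := by rw [← mul_add, heg, mul_one]
    rwa [h4, add_zero] at h5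
  have hleft : ∀ x ∈ ideal p, e * x = x := by
    intro x hx
    have hk : x - e * x ∈ ideal p := Submodule.sub_mem _ hx (Submodule.smul_mem _ e hx)
    have hk0 : e * (x - e * x) = 0 := by
      rw [mul_sub, ← mul_assoc, hright e he, sub_self]
    obtain ⟨y, hy⟩ := exists_regular (x - e * x)
    have h2 : (x - e * x) * y * (x - e * x) = 0 := by
      have h3 : (x - e * x) = (x - e * x) * e := (hright _ hk).symm
      have h4 : e * y = e * y * e := (hright _ (ideal_mul p he y)).symm
      calc (x - e * x) * y * (x - e * x) = (x - e * x) * e * y * (x - e * x) := by rw [← h3]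
        _ = (x - e * x) * (e * y) * (x - e * x) := by rw [mul_assoc (x - e * x) e y]
        _ = (x - e * x) * (e * y * e) * (x - e * x) := by rw [← h4]
        _ = (x - e * x) * (e * y) * (e * (x - e * x)) := by simp only [mul_assoc]
        _ = 0 := by rw [hk0, mul_zero]
    rw [h2] at hy
    exact (sub_eq_zero.1 hy.symm).symm
  refine ⟨e, hright e he, fun r => ?_, hleft p (mem_ideal p), fun q hq => ?_⟩
  · have h2 : e * r * e = e * r := hright _ (ideal_mul p he r)
    have h3 : e * (r * e) = r * e := hleft _ (Submodule.smul_mem _ r he)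
    rw [← h2, mul_assoc, h3]
  · have := ideal_zero hq he 1
    rwa [mul_one] at this

end ring

variable {V : Type*} [AddCommGroup V] [Module ℂ V] [FiniteDimensional ℂ V]

theorem trace_idem {f : Module.End ℂ V} (hf : f * f = f) :
    LinearMap.trace ℂ V f = (finrank ℂ (LinearMap.range f) : ℂ) := by
  refine LinearMap.IsProj.trace (p := LinearMap.range f) ⟨fun x => ⟨x, rfl⟩, ?_⟩
  rintro _ ⟨x, rfl⟩
  have := congrArg (fun g : Module.End ℂ V => g x) hf
  exact this

/-- **Equivalence of idempotents from traces.** -/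
theorem equiv_of_trace {E : Type*} [Ring E] [IsSemisimpleRing E] (ρ : E →+* Module.End ℂ V)
    (hρ : Function.Injective ρ) : ∀ (N : ℕ) (p q : E), p * p = p → q * q = q →
    finrank ℂ (LinearMap.range (ρ p)) ≤ N →
    (∀ e : E, e * e = e → (∀ r, e * r = r * e) →
      LinearMap.trace ℂ V (ρ (e * p)) = LinearMap.trace ℂ V (ρ (e * q))) →
    ∃ a b : E, a = q * a * p ∧ b = p * b * q ∧ b * a = p ∧ a * b = q := by
  have hzero : ∀ p : E, p * p = p → LinearMap.trace ℂ V (ρ p) = 0 → p = 0 := by
    intro p hp h0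
    have h1 : ρ p * ρ p = ρ p := by rw [← map_mul, hp]
    rw [trace_idem h1] at h0
    have h2 : finrank ℂ (LinearMap.range (ρ p)) = 0 := by exact_mod_cast h0
    have h3 : LinearMap.range (ρ p) = ⊥ := Submodule.finrank_eq_zero.1 h2
    have h4 : ρ p = 0 := LinearMap.range_eq_bot.1 h3
    exact hρ (by rw [h4, map_zero])
  intro N
  induction N with
  | zero =>
    intro p q hp hq hN htr
    have h1 : ρ p * ρ p = ρ p := by rw [← map_mul, hp]
    have hp0 : p = 0 := by
      refine hzero p hp ?_
      rw [trace_idem h1, Nat.le_zero.1 hN]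
      simp
    have hq0 : q = 0 := by
      refine hzero q hq ?_
      have := htr 1 (one_mul 1) (fun r => by rw [one_mul, mul_one])
      rw [one_mul, one_mul] at this
      rw [← this, hp0, map_zero, map_zero]
    exact ⟨0, 0, by simp, by simp, by simp [hp0], by simp [hq0]⟩
  | succ N ih =>
    intro p q hp hq hN htr
    by_cases hp0 : p = 0
    · have hq0 : q = 0 := by
        refine hzero q hq ?_
        have := htr 1 (one_mul 1) (fun r => by rw [one_mul, mul_one])
        rw [one_mul, one_mul] at this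
        rw [← this, hp0, map_zero, map_zero]
      exact ⟨0, 0, by simp, by simp, by simp [hp0], by simp [hq0]⟩
    · obtain ⟨e, he1, he2, he3, he4⟩ := exists_central p
      obtain ⟨r, hr⟩ : ∃ r, q * r * p ≠ 0 := by
        by_contra hcon
        push Not at hcon
        have h1 := he4 q hcon
        have h2 := htr e he1 he2
        rw [he3, he2 q, h1, map_zero, map_zero] at h2
        exact hp0 (hzero p hp h2)
      obtain ⟨x, hx⟩ : ∃ x, x = q * r * p := ⟨_, rfl⟩
      rw [← hx] at hr
      have hqx : q * x = x := by rw [hx, ← mul_assoc, ← mul_assoc, hq]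
      have hxp : x * p = x := by rw [hx, mul_assoc, hp]
      obtain ⟨y₀, hy₀⟩ := exists_regular x
      -- a quasi-inverse in `p E q`
      obtain ⟨y, hy⟩ : ∃ y, y = p * y₀ * x * (p * y₀ * q) := ⟨_, rfl⟩
      have hpy : p * y = y := by rw [hy]; simp only [← mul_assoc, hp]
      have hyq : y * q = y := by rw [hy]; simp only [mul_assoc, hq]
      have k1 : x * (p * y₀ * x) = x := by
        rw [← mul_assoc, ← mul_assoc, hxp, hy₀]
      have k2 : x * (p * y₀ * q) * x = x := by
        rw [mul_assoc, mul_assoc (p * y₀), hqx, k1]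
      have hxyx : x * y * x = x := by
        rw [hy, ← mul_assoc x, k1, k2]
      have hyxy : y * x * y = y := by
        have k3 : y * x = p * y₀ * x := by
          rw [hy, mul_assoc (p * y₀ * x), mul_assoc (p * y₀) q x, hqx, mul_assoc (p * y₀) x,
            k1]
        rw [k3, hy, ← mul_assoc, mul_assoc (p * y₀) x (p * y₀ * x), k1]
      obtain ⟨p₁, hp₁⟩ : ∃ p₁, p₁ = y * x := ⟨_, rfl⟩
      obtain ⟨q₁, hq₁⟩ : ∃ q₁, q₁ = x * y := ⟨_, rfl⟩
      have P1 : p₁ * p₁ = p₁ := by rw [hp₁, ← mul_assoc, hyxy]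
      have Q1 : q₁ * q₁ = q₁ := by rw [hq₁, ← mul_assoc, hxyx]
      have P2 : p * p₁ = p₁ := by rw [hp₁, ← mul_assoc, hpy]
      have P3 : p₁ * p = p₁ := by rw [hp₁, mul_assoc, hxp]
      have Q2 : q * q₁ = q₁ := by rw [hq₁, ← mul_assoc, hqx]
      have Q3 : q₁ * q = q₁ := by rw [hq₁, mul_assoc, hyq]
      have hp1ne : p₁ ≠ 0 := by
        intro h
        apply hr
        rw [← hxyx, mul_assoc, ← hp₁, h, mul_zero]
      have hdim : finrank ℂ (LinearMap.range (ρ (p - p₁))) ≤ N := by
        have i1 : ρ p * ρ p = ρ p := by rw [← map_mul, hp]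
        have i2 : ρ p₁ * ρ p₁ = ρ p₁ := by rw [← map_mul, P1]
        have i3 : (p - p₁) * (p - p₁) = p - p₁ := by
          rw [mul_sub, sub_mul, sub_mul, hp, P2, P3, P1, sub_self, sub_zero]
        have i4 : ρ (p - p₁) * ρ (p - p₁) = ρ (p - p₁) := by rw [← map_mul, i3]
        have t1 := trace_idem i1
        have t2 := trace_idem i2
        have t3 := trace_idem i4
        rw [map_sub ρ, map_sub, t1, t2] at t3
        have t4 : (finrank ℂ (LinearMap.range (ρ p)) : ℂ) =
            (finrank ℂ (LinearMap.range (ρ (p - p₁))) : ℂ) +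
              (finrank ℂ (LinearMap.range (ρ p₁)) : ℂ) := by
          rw [map_sub ρ, ← t3]
          ring
        have t5 : finrank ℂ (LinearMap.range (ρ p)) =
            finrank ℂ (LinearMap.range (ρ (p - p₁))) + finrank ℂ (LinearMap.range (ρ p₁)) := by
          exact_mod_cast t4
        have t6 : finrank ℂ (LinearMap.range (ρ p₁)) ≠ 0 := by
          intro h
          exact hp1ne (hzero p₁ P1 (by rw [t2, h]; simp))
        omega
      obtain ⟨a₂, b₂, ha₂, hb₂, hba₂, hab₂⟩ := ih (p - p₁) (q - q₁)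
        (by rw [mul_sub, sub_mul, sub_mul, hp, P2, P3, P1, sub_self, sub_zero])
        (by rw [mul_sub, sub_mul, sub_mul, hq, Q2, Q3, Q1, sub_self, sub_zero]) hdim
        (by
          intro e he1 he2
          have h1 := htr e he1 he2
          have h2 : LinearMap.trace ℂ V (ρ (e * p₁)) = LinearMap.trace ℂ V (ρ (e * q₁)) := by
            rw [hp₁, hq₁, ← mul_assoc, map_mul ρ (e * y) x, LinearMap.trace_mul_comm,
              ← map_mul, he2 y, ← mul_assoc, ← he2 (x * y)]
          rw [mul_sub, mul_sub, map_sub, map_sub, map_sub, map_sub, h1, h2])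
      have c1 : p₁ * (p - p₁) = 0 := by rw [mul_sub, P3, P1, sub_self]
      have c2 : (p - p₁) * p₁ = 0 := by rw [sub_mul, P2, P1, sub_self]
      have d1 : q₁ * (q - q₁) = 0 := by rw [mul_sub, Q3, Q1, sub_self]
      have d2 : (q - q₁) * q₁ = 0 := by rw [sub_mul, Q2, Q1, sub_self]
      have hxp1 : x * p₁ = x := by rw [hp₁, ← mul_assoc, hxyx]
      have hq1x : q₁ * x = x := by rw [hq₁, hxyx]
      have hyq1 : y * q₁ = y := by rw [hq₁, ← mul_assoc, hyxy]
      have hp1y : p₁ * y = y := by rw [hp₁, hyxy]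
      have z1 : b₂ * x = 0 := by rw [hb₂, ← hq1x, mul_assoc, ← mul_assoc (q - q₁), d2,
        zero_mul, mul_zero]
      have z2 : y * a₂ = 0 := by
        rw [ha₂, ← hyq1, mul_assoc y, ← mul_assoc q₁, ← mul_assoc q₁, d1, zero_mul, zero_mul,
          mul_zero]
      have z3 : a₂ * y = 0 := by rw [ha₂, ← hp1y, mul_assoc, ← mul_assoc (p - p₁), c2,
        zero_mul, mul_zero]
      have z4 : x * b₂ = 0 := by
        rw [hb₂, ← hxp1, mul_assoc x, ← mul_assoc p₁, ← mul_assoc p₁, c1, zero_mul, zero_mul,
          mul_zero]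
      have hpp : p * (p - p₁) = p - p₁ := by rw [mul_sub, hp, P2]
      have hpp' : (p - p₁) * p = p - p₁ := by rw [sub_mul, hp, P3]
      have hqq : q * (q - q₁) = q - q₁ := by rw [mul_sub, hq, Q2]
      have hqq' : (q - q₁) * q = q - q₁ := by rw [sub_mul, hq, Q3]
      refine ⟨x + a₂, y + b₂, ?_, ?_, ?_, ?_⟩
      · rw [mul_add, add_mul, hqx, hxp]
        congr 1
        rw [ha₂, ← mul_assoc, ← mul_assoc, hqq, mul_assoc _ (p - p₁) p, hpp']
      · rw [mul_add, add_mul, hpy, hyq]
        congr 1
        rw [hb₂, ← mul_assoc, ← mul_assoc, hpp, mul_assoc _ (q - q₁) q, hqq']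
      · rw [add_mul, mul_add, mul_add, z1, z2, hba₂, ← hp₁]
        abel
      · rw [add_mul, mul_add, mul_add, z3, z4, hab₂, ← hq₁]
        abel

end Pool.Agent.R929.OC
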