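import Pool.Agent.R929.OC.Alg

/-!
# Isomorphic Chow motives from the dimensions of the images of central idempotents
-/

namespace Pool.Agent.R929.OC

open Module Finset Pool.Agent.TH125.Tw

variable {n : ℕ} {X Y : Twisted n} {D : Corr X Y} {π : ℕ → D.C}

theorem kun_idem (hπ : IsKun D π) (k : ℕ) : D.act (π k) * D.act (π k) = D.act (π k) := by
  refine LinearMap.ext fun z => ?_
  rw [Module.End.mul_apply]
  refine ind2 (P := fun z => D.act (π k) (D.act (π k) z) = D.act (π k) z) ?_ ?_ ?_ z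
  · intro z w hz hw
    simp only [map_add, hz, hw]
  · intro p q x hx
    have h := hπ.2 k p q x 0 hx (Submodule.zero_mem _)
    by_cases hk : p + q = k
    · rw [if_pos hk] at h
      rw [h, h]
    · rw [if_neg hk] at h
      rw [h, map_zero]
  · intro p q y hy
    have h := hπ.2 k p q 0 y (Submodule.zero_mem _) hy
    by_cases hk : p + q = k
    · rw [if_pos hk] at h
      rw [h, h]
    · rw [if_neg hk] at h
      rw [h, map_zero]

theorem kun_orth (hπ : IsKun D π) {k l : ℕ} (hkl : k ≠ l) :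
    D.act (π k) * D.act (π l) = 0 := by
  refine LinearMap.ext fun z => ?_
  rw [Module.End.mul_apply]
  refine ind2 (P := fun z => D.act (π k) (D.act (π l) z) = (0 : Module.End ℂ _) z) ?_ ?_ ?_ z
  · intro z w hz hw
    simp only [map_add, hz, hw]
  · intro p q x hx
    have h := hπ.2 l p q x 0 hx (Submodule.zero_mem _)
    have h' := hπ.2 k p q x 0 hx (Submodule.zero_mem _)
    by_cases hk : p + q = l
    · rw [if_pos hk] at h
      rw [if_neg (by omega)] at h'
      rw [h, h']
      rfl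
    · rw [if_neg hk] at h
      rw [h, map_zero]
      rfl
  · intro p q y hy
    have h := hπ.2 l p q 0 y (Submodule.zero_mem _) hy
    have h' := hπ.2 k p q 0 y (Submodule.zero_mem _) hy
    by_cases hk : p + q = l
    · rw [if_pos hk] at h
      rw [if_neg (by omega)] at h'
      rw [h, h']
      rfl
    · rw [if_neg hk] at h
      rw [h, map_zero]
      rfl

theorem kun_dX (hπ : IsKun D π) (k : ℕ) :
    D.act D.dX * D.act (π k) = D.act (π k) * D.act D.dX := by
  refine LinearMap.ext fun z => ?_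
  rw [Module.End.mul_apply, Module.End.mul_apply]
  refine ind2 (P := fun z => D.act D.dX (D.act (π k) z) = D.act (π k) (D.act D.dX z))
    ?_ ?_ ?_ z
  · intro z w hz hw
    simp only [map_add, hz, hw]
  · intro p q x hx
    have h := hπ.2 k p q x 0 hx (Submodule.zero_mem _)
    rw [D.act_dX (x, 0), h]
    split_ifs
    · rw [D.act_dX]
    · rw [map_zero]
  · intro p q y hy
    have h := hπ.2 k p q 0 y (Submodule.zero_mem _) hy
    rw [D.act_dX (0, y), h]
    have h0 : ((0 : X.H), (0 : Y.H)) = 0 := rfl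
    split_ifs
    · rw [D.act_dX]
      simp only [h0, map_zero]
    · simp only [h0, map_zero]

theorem kun_dY (hπ : IsKun D π) (k : ℕ) :
    D.act D.dY * D.act (π k) = D.act (π k) * D.act D.dY := by
  have h1 : D.dY = 1 - D.dX := by rw [← D.d_add]; abel
  rw [h1, map_sub, map_one, sub_mul, mul_sub, one_mul, mul_one, kun_dX hπ]

theorem kun_sum (hπ : IsKun D π) :
    ∑ k ∈ range (2 * n + 1), D.act (π k) = 1 := by
  refine LinearMap.ext fun z => ?_
  rw [LinearMap.sum_apply, Module.End.one_apply]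
  refine ind2 (P := fun z => ∑ k ∈ range (2 * n + 1), D.act (π k) z = z) ?_ ?_ ?_ z
  · intro z w hz hw
    simp only [map_add, Finset.sum_add_distrib, hz, hw]
  · intro p q x hx
    by_cases hpq : p ≤ n ∧ q ≤ n
    · rw [Finset.sum_eq_single (p + q)]
      · rw [hπ.2 _ p q x 0 hx (Submodule.zero_mem _), if_pos rfl]
      · intro k _ hk
        rw [hπ.2 _ p q x 0 hx (Submodule.zero_mem _), if_neg (Ne.symm hk)]
      · intro h
        rw [mem_range] at h
        omega
    · have hx0 : x = 0 := X.piece_large (by omega) hx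
      have h0 : ((0 : X.H), (0 : Y.H)) = 0 := rfl
      rw [hx0, h0]
      simp
  · intro p q y hy
    by_cases hpq : p ≤ n ∧ q ≤ n
    · rw [Finset.sum_eq_single (p + q)]
      · rw [hπ.2 _ p q 0 y (Submodule.zero_mem _) hy, if_pos rfl]
      · intro k _ hk
        rw [hπ.2 _ p q 0 y (Submodule.zero_mem _) hy, if_neg (Ne.symm hk)]
      · intro h
        rw [mem_range] at h
        omega
    · have hy0 : y = 0 := Y.piece_large (by omega) hy
      have h0 : ((0 : X.H), (0 : Y.H)) = 0 := rfl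
      rw [hy0, h0]
      simp

theorem pow_mem0 {c : D.C} (hc : c ∈ D.deg 0) (j : ℕ) : c ^ j ∈ D.deg 0 := by
  induction j with
  | zero => rw [pow_zero]; exact D.one_mem
  | succ j ih => rw [pow_succ]; exact D.mul_mem0 ih hc

theorem exists_inverse {c : D.C} (hc : c ∈ D.deg 0) (h : IsNilpotent c) :
    ∃ t ∈ D.deg 0, t * (1 - c) = 1 ∧ (1 - c) * t = 1 := by
  obtain ⟨N, hN⟩ := h
  refine ⟨∑ j ∈ range N, c ^ j, Submodule.sum_mem _ fun j _ => pow_mem0 hc j, ?_, ?_⟩
  · rw [geom_sum_mul_neg, hN, sub_zero]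
  · rw [mul_neg_geom_sum, hN, sub_zero]

/-- Lifting of an isomorphism of homological motives. -/
theorem lift (hN : Nilpotence D) {c d : D.C} (hc : c ∈ D.deg 0) (hd : d ∈ D.deg 0)
    (hc2 : c = D.dY * c * D.dX) (hd2 : d = D.dX * d * D.dY)
    (h1 : D.act (d * c) = D.act D.dX) (h2 : D.act (c * d) = D.act D.dY) :
    MotivesIsomorphic D := by
  have hcX : c * D.dX = c := by
    conv_lhs => rw [hc2]
    rw [mul_assoc, D.dX_idem]
    exact hc2.symm
  have hYc : D.dY * c = c := by
    conv_lhs => rw [hc2]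
    rw [mul_assoc, ← mul_assoc D.dY D.dY, D.dY_idem, ← mul_assoc]
    exact hc2.symm
  have hdY : d * D.dY = d := by
    conv_lhs => rw [hd2]
    rw [mul_assoc, D.dY_idem]
    exact hd2.symm
  have hXd : D.dX * d = d := by
    conv_lhs => rw [hd2]
    rw [mul_assoc, ← mul_assoc D.dX D.dX, D.dX_idem, ← mul_assoc]
    exact hd2.symm
  obtain ⟨t, ht, ht1, -⟩ := exists_inverse (D := D) (c := D.dX - d * c)
    (Submodule.sub_mem _ D.dX_mem (D.mul_mem0 hd hc))
    (hN.act _ (Submodule.sub_mem _ D.dX_mem (D.mul_mem0 hd hc)) (by rw [map_sub, h1, sub_self]))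
  obtain ⟨s, hs, -, hs2⟩ := exists_inverse (D := D) (c := D.dY - c * d)
    (Submodule.sub_mem _ D.dY_mem (D.mul_mem0 hc hd))
    (hN.act _ (Submodule.sub_mem _ D.dY_mem (D.mul_mem0 hc hd)) (by rw [map_sub, h2, sub_self]))
  have l1 : D.dX * t * d * c = D.dX := by
    have e : d * c = (1 - (D.dX - d * c)) * D.dX := by
      rw [sub_mul, one_mul, sub_mul, D.dX_idem, mul_assoc, hcX]
      abel
    rw [mul_assoc (D.dX * t), e, mul_assoc D.dX, ← mul_assoc t, ht1, one_mul, D.dX_idem]
  have r1 : c * (d * s * D.dY) = D.dY := by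
    have e : c * d = D.dY * (1 - (D.dY - c * d)) := by
      rw [mul_sub, mul_one, mul_sub, D.dY_idem, ← mul_assoc, hYc]
      abel
    rw [← mul_assoc, ← mul_assoc, e, mul_assoc D.dY, hs2, mul_one, D.dY_idem]
  have r2 : D.dX * (d * s * D.dY) = d * s * D.dY := by
    rw [← mul_assoc, ← mul_assoc, hXd]
  have l2 : D.dX * t * d = d * s * D.dY := by
    calc D.dX * t * d = D.dX * t * d * D.dY := by rw [mul_assoc (D.dX * t), hdY]
      _ = D.dX * t * d * (c * (d * s * D.dY)) := by rw [r1]
      _ = D.dX * t * d * c * (d * s * D.dY) := by rw [← mul_assoc]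
      _ = d * s * D.dY := by rw [l1, r2]
  refine ⟨c, hc, D.dX * t * d, D.mul_mem0 (D.mul_mem0 D.dX_mem ht) hd, hc2, ?_, l1, ?_⟩
  · rw [mul_assoc (D.dX) (D.dX * t * d), mul_assoc (D.dX * t), hdY, ← mul_assoc,
      ← mul_assoc D.dX D.dX, D.dX_idem]
  · rw [l2, r1]

/-- The operator `a` lifts to a correspondence of degree zero. -/
theorem exists_lift (hπ : IsKun D π) (a : ℕ → Module.End ℂ (X.H × Y.H)) (u v : D.C)
    (hu : u ∈ D.deg 0) (hv : v ∈ D.deg 0) (hu2 : u * u = u) (hv2 : v * v = v)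
    (ha : ∀ k, ∃ c : D.C, D.act c = a k)
    (ha2 : ∀ k, a k = D.act v * D.act (π k) * a k * D.act (π k) * D.act u) :
    ∃ c ∈ D.deg 0, c = v * c * u ∧ D.act c = ∑ k ∈ range (2 * n + 1), a k := by
  choose c hc using ha
  have h0 := fun k => exists_zero hπ (c k)
  choose c₀ hc₀ h using h0
  refine ⟨∑ k ∈ range (2 * n + 1), v * π k * c₀ k * π k * u, ?_, ?_, ?_⟩
  · refine Submodule.sum_mem _ fun k _ => ?_
    exact D.mul_mem0 (D.mul_mem0 (D.mul_mem0 (D.mul_mem0 hv (hπ.1 k)) (hc₀ k)) (hπ.1 k)) hu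
  · rw [Finset.mul_sum, Finset.sum_mul]
    refine Finset.sum_congr rfl fun k _ => ?_
    rw [mul_assoc v _ u, mul_assoc _ u u, hu2]
    simp only [← mul_assoc, hv2]
  · rw [map_sum]
    refine Finset.sum_congr rfl fun k _ => ?_
    have e : D.act (π k) * a k * D.act (π k) = D.act (π k) * D.act (c₀ k) * D.act (π k) := by
      refine LinearMap.ext fun z => ?_
      simp only [Module.End.mul_apply]
      rw [← hc k]
      exact h k k z
    calc D.act (v * π k * c₀ k * π k * u) =
        D.act v * (D.act (π k) * D.act (c₀ k) * D.act (π k)) * D.act u := by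
          simp only [map_mul, mul_assoc]
      _ = D.act v * (D.act (π k) * a k * D.act (π k)) * D.act u := by rw [e]
      _ = a k := by
          conv_rhs => rw [ha2 k]
          simp only [mul_assoc]

/-- **Isomorphic Chow motives from the dimensions of the images of central idempotents.** -/
theorem motives_iso (hπ : IsKun D π) (hN : Nilpotence D) (hS : Semisimple D)
    (hdim : ∀ (e : Module.End ℂ (X.H × Y.H)) (he : IsCentral D e) (p q : ℕ),
      (sub (he.compat_fst hπ)).hodgeNumber p q = (sub (he.compat_snd hπ)).hodgeNumber p q) :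
    MotivesIsomorphic D := by
  have : IsSemisimpleRing D.act.range := hS
  let ρ : D.act.range →+* Module.End ℂ (X.H × Y.H) := D.act.range.subtype
  have hρ : Function.Injective ρ := Subtype.val_injective
  let P : ℕ → D.act.range := fun k => ⟨D.act (π k * D.dX), ⟨_, rfl⟩⟩
  let Q : ℕ → D.act.range := fun k => ⟨D.act (π k * D.dY), ⟨_, rfl⟩⟩
  have hPv : ∀ k, ((P k : D.act.range) : Module.End ℂ (X.H × Y.H)) =
      D.act (π k) * D.act D.dX := fun k => map_mul D.act _ _
  have hQv : ∀ k, ((Q k : D.act.range) : Module.End ℂ (X.H × Y.H)) =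
      D.act (π k) * D.act D.dY := fun k => map_mul D.act _ _
  have hX2 : D.act D.dX * D.act D.dX = D.act D.dX := by rw [← map_mul, D.dX_idem]
  have hY2 : D.act D.dY * D.act D.dY = D.act D.dY := by rw [← map_mul, D.dY_idem]
  have hP : ∀ k, P k * P k = P k := by
    intro k
    refine Subtype.ext ?_
    show (P k : Module.End ℂ (X.H × Y.H)) * (P k : Module.End ℂ (X.H × Y.H)) = _
    rw [hPv, mul_assoc, ← mul_assoc (D.act D.dX), kun_dX hπ, mul_assoc (D.act (π k)) _ _,
      hX2, ← mul_assoc, kun_idem hπ]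
  have hQ : ∀ k, Q k * Q k = Q k := by
    intro k
    refine Subtype.ext ?_
    show (Q k : Module.End ℂ (X.H × Y.H)) * (Q k : Module.End ℂ (X.H × Y.H)) = _
    rw [hQv, mul_assoc, ← mul_assoc (D.act D.dY), kun_dY hπ, mul_assoc (D.act (π k)) _ _,
      hY2, ← mul_assoc, kun_idem hπ]
  have hPo : ∀ k l, k ≠ l → P k * P l = 0 := by
    intro k l hkl
    refine Subtype.ext ?_
    show (P k : Module.End ℂ (X.H × Y.H)) * (P l : Module.End ℂ (X.H × Y.H)) = 0
    rw [hPv, hPv, mul_assoc, ← mul_assoc (D.act D.dX), kun_dX hπ, ← mul_assoc, ← mul_assoc,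
      kun_orth hπ hkl, zero_mul, zero_mul]
  have hQo : ∀ k l, k ≠ l → Q k * Q l = 0 := by
    intro k l hkl
    refine Subtype.ext ?_
    show (Q k : Module.End ℂ (X.H × Y.H)) * (Q l : Module.End ℂ (X.H × Y.H)) = 0
    rw [hQv, hQv, mul_assoc, ← mul_assoc (D.act D.dY), kun_dY hπ, ← mul_assoc, ← mul_assoc,
      kun_orth hπ hkl, zero_mul, zero_mul]
  have key : ∀ k, ∃ a b : D.act.range, a = Q k * a * P k ∧ b = P k * b * Q k ∧
      b * a = P k ∧ a * b = Q k := by
    intro k
    refine equiv_of_trace ρ hρ _ (P k) (Q k) (hP k) (hQ k) le_rfl ?_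
    intro e he1 he2
    have he : IsCentral D (e : Module.End ℂ (X.H × Y.H)) := {
      mem := e.2
      idem := fun z => congrArg (fun f : D.act.range => (f : Module.End ℂ (X.H × Y.H)) z) he1
      comm := fun c z => congrArg (fun f : D.act.range => (f : Module.End ℂ (X.H × Y.H)) z)
        (he2 ⟨D.act c, ⟨c, rfl⟩⟩) }
    have t1 := trace_fst hπ he k
    have t2 := trace_snd hπ he k
    have t3 : ∑ i ∈ antidiagonal k, (sub (he.compat_fst hπ)).hodgeNumber i.1 i.2 =
        ∑ i ∈ antidiagonal k, (sub (he.compat_snd hπ)).hodgeNumber i.1 i.2 :=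
      Finset.sum_congr rfl fun i _ => hdim _ he i.1 i.2
    rw [t3, ← t2] at t1
    exact t1
  choose a b ha hb hba hab using key
  -- lifts
  obtain ⟨c, hc, hc2, hc3⟩ := exists_lift hπ (fun k => (a k : Module.End ℂ (X.H × Y.H)))
    D.dX D.dY D.dX_mem D.dY_mem D.dX_idem D.dY_idem (fun k => (a k).2) (by
      intro k
      have h1 := congrArg (fun f : D.act.range => (f : Module.End ℂ (X.H × Y.H))) (ha k)
      have h2 : ((Q k * a k * P k : D.act.range) : Module.End ℂ (X.H × Y.H)) =
        (Q k : Module.End ℂ (X.H × Y.H)) * (a k : Module.End ℂ (X.H × Y.H)) *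
          (P k : Module.End ℂ (X.H × Y.H)) := rfl
      rw [h2, hPv, hQv, ← kun_dY hπ, ← mul_assoc] at h1
      exact h1)
  obtain ⟨d, hd, hd2, hd3⟩ := exists_lift hπ (fun k => (b k : Module.End ℂ (X.H × Y.H)))
    D.dY D.dX D.dY_mem D.dX_mem D.dY_idem D.dX_idem (fun k => (b k).2) (by
      intro k
      have h1 := congrArg (fun f : D.act.range => (f : Module.End ℂ (X.H × Y.H))) (hb k)
      have h2 : ((P k * b k * Q k : D.act.range) : Module.End ℂ (X.H × Y.H)) =
        (P k : Module.End ℂ (X.H × Y.H)) * (b k : Module.End ℂ (X.H × Y.H)) *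
          (Q k : Module.End ℂ (X.H × Y.H)) := rfl
      rw [h2, hPv, hQv, ← kun_dX hπ, ← mul_assoc] at h1
      exact h1)
  have cross1 : ∀ k l, k ≠ l → b k * a l = 0 := by
    intro k l hkl
    rw [hb k, ha l, mul_assoc (P k * b k), ← mul_assoc (Q k), ← mul_assoc (Q k),
      hQo k l hkl, zero_mul, zero_mul, mul_zero]
  have cross2 : ∀ k l, k ≠ l → a k * b l = 0 := by
    intro k l hkl
    rw [ha k, hb l, mul_assoc (Q k * a k), ← mul_assoc (P k), ← mul_assoc (P k),
      hPo k l hkl, zero_mul, zero_mul, mul_zero]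
  have s1 : (∑ k ∈ range (2 * n + 1), b k) * (∑ k ∈ range (2 * n + 1), a k) =
      ∑ k ∈ range (2 * n + 1), P k := by
    rw [Finset.sum_mul]
    refine Finset.sum_congr rfl fun k hk => ?_
    rw [Finset.mul_sum, Finset.sum_eq_single k]
    · exact hba k
    · intro l _ hl
      exact cross1 k l (Ne.symm hl)
    · intro h
      exact absurd hk h
  have s2 : (∑ k ∈ range (2 * n + 1), a k) * (∑ k ∈ range (2 * n + 1), b k) =
      ∑ k ∈ range (2 * n + 1), Q k := by
    rw [Finset.sum_mul]
    refine Finset.sum_congr rfl fun k hk => ?_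
    rw [Finset.mul_sum, Finset.sum_eq_single k]
    · exact hab k
    · intro l _ hl
      exact cross2 k l (Ne.symm hl)
    · intro h
      exact absurd hk h
  have hsumv : ∀ g : ℕ → D.act.range, ((∑ k ∈ range (2 * n + 1), g k : D.act.range) :
      Module.End ℂ (X.H × Y.H)) = ∑ k ∈ range (2 * n + 1), (g k : Module.End ℂ (X.H × Y.H)) :=
    fun g => map_sum ρ g _
  refine lift hN hc hd hc2 hd2 ?_ ?_
  · have h1 := congrArg (fun f : D.act.range => (f : Module.End ℂ (X.H × Y.H))) s1
    simp only [Subring.coe_mul, hsumv, hPv] at h1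
    rw [map_mul, hc3, hd3, h1, ← Finset.sum_mul, kun_sum hπ, one_mul]
  · have h1 := congrArg (fun f : D.act.range => (f : Module.End ℂ (X.H × Y.H))) s2
    simp only [Subring.coe_mul, hsumv, hQv] at h1
    rw [map_mul, hc3, hd3, h1, ← Finset.sum_mul, kun_sum hπ, one_mul]

end Pool.Agent.R929.OC
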