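import Pool.Agent.TH125.Tw.Main
import Pool.Agent.R929.OC.Idem

/-!
# Nondegeneracy on the image of an idempotent commuting with the Lefschetz operator
-/

namespace Pool.Agent.R929.OC

open Module Finset Pool.Agent.TH125.Tw

variable {n : ℕ} {X : Twisted n} {f : Module.End ℂ X.H}

/-- The radical of the form on the vectors which are fixed by `f`. -/
def Rad (f : Module.End ℂ X.H) (x : X.H) : Prop :=
  f x = x ∧ ∀ y, f y = y → X.form x y = 0

theorem lef_surj (X : Twisted n) {p q j : ℕ} (h : p + q + j = n) {y : X.H}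
    (hy : y ∈ X.piece (p + j) (q + j)) : ∃ z ∈ X.piece p q, (X.lef ^ j) z = y := by
  let T : X.piece p q →ₗ[ℂ] X.piece (p + j) (q + j) :=
    (X.lef ^ j).restrict fun x hx => X.lef_pow_mem hx j
  have hT : ∀ x, ((T x : X.piece (p + j) (q + j)) : X.H) = (X.lef ^ j) x := fun x => rfl
  have hinj : Function.Injective T := by
    rw [injective_iff_map_eq_zero]
    intro x hx
    have h1 : (X.lef ^ j) (x : X.H) = 0 := by rw [← hT, hx]; rfl
    have h2 : n - (p + q) = j := by omega
    exact Subtype.ext (X.hard_lefschetz x.2 (by omega) (by rw [h2]; exact h1))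
  have hd : finrank ℂ (X.piece p q) = finrank ℂ (X.piece (p + j) (q + j)) :=
    X.dim_eq (p := p) (q := q) (p' := p + j) (q' := q + j) (by omega) (by omega)
  have hs := (LinearMap.injective_iff_surjective_of_finrank_eq_finrank hd).1 hinj
  obtain ⟨z, hz⟩ := hs ⟨y, hy⟩
  exact ⟨z, z.2, by rw [← hT, hz]⟩

section

variable (hmem : ∀ {p q : ℕ} {x : X.H}, x ∈ X.piece p q → f x ∈ X.piece p q)
  (hlef : ∀ x, f (X.lef x) = X.lef (f x)) (hidem : ∀ x, f (f x) = f x)

include hlef in
theorem lef_pow_comm (j : ℕ) (x : X.H) : f ((X.lef ^ j) x) = (X.lef ^ j) (f x) := by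
  induction j with
  | zero => simp
  | succ j ih => rw [pow_succ', Module.End.mul_apply, hlef, ih, Module.End.mul_apply]

include hmem hlef in
theorem lef_surj_fix {p q j : ℕ} (h : p + q + j = n) {y : X.H}
    (hy : y ∈ X.piece (p + j) (q + j)) (hfy : f y = y) :
    ∃ z ∈ X.piece p q, f z = z ∧ (X.lef ^ j) z = y := by
  obtain ⟨z, hz, hzy⟩ := lef_surj X h hy
  refine ⟨z, hz, ?_, hzy⟩
  have h1 : (X.lef ^ j) (f z - z) = 0 := by
    rw [map_sub, ← lef_pow_comm hlef, hzy, hfy, sub_self]
  have h2 : n - (p + q) = j := by omega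
  have h3 := X.hard_lefschetz (Submodule.sub_mem _ (hmem hz) hz) (by omega)
    (by rw [h2]; exact h1)
  exact sub_eq_zero.1 h3

include hmem hidem in
/-- Fixed vectors are sums of homogeneous fixed vectors. -/
theorem exists_dec {x : X.H} (hx : f x = x) : ∃ (s : Finset (ℕ × ℕ)) (h : ℕ × ℕ → X.H),
    (∀ i ∈ s, h i ∈ X.piece i.1 i.2 ∧ f (h i) = h i) ∧ ∑ i ∈ s, h i = x := by
  have h1 : x ∈ ⨆ i : ℕ × ℕ, X.piece i.1 i.2 := by
    rw [X.internal.submodule_iSup_eq_top]
    exact Submodule.mem_top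
  rw [Submodule.mem_iSup_iff_exists_finsupp] at h1
  obtain ⟨g, hg, hgx⟩ := h1
  refine ⟨g.support, fun i => f (g i), fun i _ => ⟨hmem (hg i), hidem _⟩, ?_⟩
  rw [← map_sum, ← hx]
  congr 1

include hmem hidem in
/-- The radical can be tested on homogeneous vectors. -/
theorem rad_test {p q p' q' : ℕ} (hp : p + q' = n) (hq : q + p' = n) {z : X.H}
    (hz : z ∈ X.piece p q) (hfz : f z = z)
    (h : ∀ w ∈ X.piece p' q', f w = w → X.form z w = 0) : Rad f z := by
  refine ⟨hfz, fun y hy => ?_⟩
  obtain ⟨s, g, hg, rfl⟩ := exists_dec hmem hidem hy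
  rw [map_sum]
  refine Finset.sum_eq_zero fun i hi => ?_
  obtain ⟨h1, h2⟩ := hg i hi
  by_cases hi2 : (p + i.2, q + i.1) = (n, n)
  · have e1 := congrArg Prod.fst hi2
    have e2 := congrArg Prod.snd hi2
    simp only at e1 e2
    refine h _ ?_ h2
    have e3 : i.1 = p' := by omega
    have e4 : i.2 = q' := by omega
    rw [← e3, ← e4]
    exact h1
  · exact X.form_zero hz h1 hi2

include hmem hlef hidem in
theorem rad_lower {p q j : ℕ} (h : p + q + j = n) {z : X.H} (hz : z ∈ X.piece p q)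
    (hfz : f z = z) (ht : ∀ w ∈ X.piece p q, f w = w → X.form ((X.lef ^ j) z) w = 0) :
    Rad f z := by
  refine rad_test hmem hidem (p' := p + j) (q' := q + j) (by omega) (by omega) hz hfz ?_
  intro w hw hfw
  obtain ⟨w', hw', hfw', rfl⟩ := lef_surj_fix hmem hlef h hw hfw
  rw [← X.lef_pow_form]
  exact ht w' hw' hfw'

include hmem hlef hidem in
theorem rad_zero_low : ∀ (k : ℕ), k ≤ n → ∀ p q : ℕ, p + q = k → ∀ x ∈ X.piece p q,
    Rad f x → x = 0 := by
  intro k
  induction k using Nat.strong_induction_on with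
  | _ k ih =>
    intro hk p q hpq x hx hr
    by_contra hx0
    have hy : (X.lef ^ (n - (p + q) + 1)) x = 0 := by
      by_cases h0 : p = 0 ∨ q = 0
      · exact X.piece_large (p := p + (n - (p + q) + 1)) (q := q + (n - (p + q) + 1))
          (by omega) (X.lef_pow_mem hx _)
      · push Not at h0
        obtain ⟨p₁, rfl⟩ : ∃ p₁, p = p₁ + 1 := ⟨p - 1, by omega⟩
        obtain ⟨q₁, rfl⟩ : ∃ q₁, q = q₁ + 1 := ⟨q - 1, by omega⟩
        set m := n - (p₁ + 1 + (q₁ + 1)) + 1 with hm
        have hmem2 : (X.lef ^ m) x ∈ X.piece (p₁ + (m + 1)) (q₁ + (m + 1)) := by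
          have := X.lef_pow_mem hx m
          rwa [show p₁ + 1 + m = p₁ + (m + 1) by ring, show q₁ + 1 + m = q₁ + (m + 1) by ring]
            at this
        have hfix : f ((X.lef ^ m) x) = (X.lef ^ m) x := by
          rw [lef_pow_comm hlef, hr.1]
        obtain ⟨z, hz, hfz, hzy⟩ := lef_surj_fix hmem hlef (p := p₁) (q := q₁) (j := m + 1)
          (by omega) hmem2 hfix
        have hzr : Rad f z := by
          refine rad_lower hmem hlef hidem (j := m + 1) (by omega) hz hfz ?_
          intro w hw hfw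
          rw [hzy, X.lef_pow_form]
          exact hr.2 _ (by rw [lef_pow_comm hlef, hfw])
        have hz0 := ih (p₁ + q₁) (by omega) (by omega) p₁ q₁ rfl z hz hzr
        rw [← hzy, hz0, map_zero]
    have h1 := X.hodge_riemann hx (by omega) hy hx0
    have h2 : X.form ((X.lef ^ (n - (p + q))) x) x = 0 := by
      rw [X.lef_pow_form]
      exact hr.2 _ (by rw [lef_pow_comm hlef, hr.1])
    rw [h2, mul_zero] at h1
    simp at h1

include hmem hlef hidem in
theorem rad_zero_hom {p q : ℕ} {x : X.H} (hx : x ∈ X.piece p q) (hr : Rad f x) : x = 0 := by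
  by_cases hk : p + q ≤ n
  · exact rad_zero_low hmem hlef hidem _ hk p q rfl x hx hr
  · obtain ⟨j, hj⟩ : ∃ j, p + q = n + j := ⟨p + q - n, by omega⟩
    by_cases h0 : p < j ∨ q < j
    · exact X.piece_large (by omega) hx
    · push Not at h0
      obtain ⟨p₁, rfl⟩ : ∃ p₁, p = p₁ + j := ⟨p - j, by omega⟩
      obtain ⟨q₁, rfl⟩ : ∃ q₁, q = q₁ + j := ⟨q - j, by omega⟩
      obtain ⟨z, hz, hfz, rfl⟩ := lef_surj_fix hmem hlef (p := p₁) (q := q₁) (j := j)
        (by omega) hx hr.1
      have hzr : Rad f z := by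
        refine rad_lower hmem hlef hidem (j := j) (by omega) hz hfz ?_
        intro w hw hfw
        exact hr.2 _ hfw
      rw [rad_zero_low hmem hlef hidem _ (by omega) p₁ q₁ rfl z hz hzr, map_zero]

include hmem hlef hidem in
/-- **The form is nondegenerate on the image.** -/
theorem rad_zero {x : X.H} (hx : f x = x) (h : ∀ y, f y = y → X.form x y = 0) : x = 0 := by
  classical
  obtain ⟨s, g, hg, rfl⟩ := exists_dec hmem hidem hx
  refine Finset.sum_eq_zero fun i hi => ?_
  obtain ⟨h1, h2⟩ := hg i hi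
  by_cases hin : i.1 ≤ n ∧ i.2 ≤ n
  · refine rad_zero_hom hmem hlef hidem h1 (rad_test hmem hidem (p' := n - i.2)
      (q' := n - i.1) (by omega) (by omega) h1 h2 ?_)
    intro w hw hfw
    have h3 := h w hfw
    rw [map_sum, LinearMap.sum_apply, Finset.sum_eq_single i] at h3
    · exact h3
    · intro j hj hji
      refine X.form_zero (hg j hj).1 hw fun h4 => hji ?_
      have e1 := congrArg Prod.fst h4
      have e2 := congrArg Prod.snd h4
      simp only at e1 e2
      ext <;> omega
    · intro hi2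
      exact absurd hi hi2
  · exact X.piece_large (by omega) h1

end

end Pool.Agent.R929.OC
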