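import Pool.Agent.R929.OC.Nondeg

/-!
# The image of an idempotent operator commuting with the Lefschetz operator
-/

namespace Pool.Agent.R929.OC

open Module Finset Pool.Agent.TH125.Tw

variable {n : ℕ}

/-- An idempotent operator on the cohomology which preserves the Hodge decomposition and commutes
with the Lefschetz operator and the first Chern class. -/
structure Compat (X : Twisted n) (f : Module.End ℂ X.H) : Prop where
  mem : ∀ {p q : ℕ} {x : X.H}, x ∈ X.piece p q → f x ∈ X.piece p q
  lef : ∀ x, f (X.lef x) = X.lef (f x)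
  chern : ∀ x, f (X.chern x) = X.chern (f x)
  idem : ∀ x, f (f x) = f x

variable {X : Twisted n} {f : Module.End ℂ X.H}

/-- Restriction of an operator which commutes with `f` to the image of `f`. -/
def restr (f g : Module.End ℂ X.H) (h : ∀ x, f (g x) = g (f x)) :
    LinearMap.range f →ₗ[ℂ] LinearMap.range f :=
  g.restrict (p := LinearMap.range f) (q := LinearMap.range f) (by
    rintro _ ⟨z, rfl⟩
    exact ⟨g z, h z⟩)

theorem restr_coe (f g : Module.End ℂ X.H) (h : ∀ x, f (g x) = g (f x)) (x : LinearMap.range f) :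
    ((restr f g h x : LinearMap.range f) : X.H) = g x := rfl

theorem restr_pow (f g : Module.End ℂ X.H) (h : ∀ x, f (g x) = g (f x)) (k : ℕ)
    (x : LinearMap.range f) : (((restr f g h ^ k) x : LinearMap.range f) : X.H) = (g ^ k) x := by
  induction k with
  | zero => simp
  | succ k ih =>
    rw [pow_succ', pow_succ', Module.End.mul_apply, Module.End.mul_apply, restr_coe, ih]

theorem Compat.nondeg (h : Compat X f) (x : X.H) (hx : f x = x)
    (h2 : ∀ y, f y = y → X.form x y = 0) : x = 0 := rad_zero h.mem h.lef h.idem hx h2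

theorem Compat.fix (h : Compat X f) {x : X.H} (hx : x ∈ LinearMap.range f) : f x = x := by
  obtain ⟨z, rfl⟩ := hx
  exact h.idem z

/-- The graded form on the image. -/
def subForm (h : Compat X f) : GradedForm where
  H := LinearMap.range f
  piece p q := (X.piece p q).comap (LinearMap.range f).subtype
  internal := by
    rw [DirectSum.isInternal_submodule_iff_iSupIndep_and_iSup_eq_top]
    constructor
    · rw [iSupIndep_def]
      intro i
      rw [Submodule.disjoint_def]
      intro x hx hx2
      have h1 : (x : X.H) ∈ X.piece i.1 i.2 := hx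
      have h2 : (x : X.H) ∈ ⨆ j, ⨆ (_ : j ≠ i), X.piece j.1 j.2 := by
        have h3 : (⨆ j, ⨆ (_ : j ≠ i), (X.piece j.1 j.2).comap (LinearMap.range f).subtype) ≤
            (⨆ j, ⨆ (_ : j ≠ i), X.piece j.1 j.2).comap (LinearMap.range f).subtype := by
          refine iSup₂_le fun j hj => Submodule.comap_mono ?_
          exact le_iSup₂ (f := fun (j : ℕ × ℕ) (_ : j ≠ i) => X.piece j.1 j.2) j hj
        exact h3 hx2
      have h4 := X.internal.submodule_iSupIndep
      rw [iSupIndep_def] at h4
      have h5 := (Submodule.disjoint_def.1 (h4 i)) _ h1 h2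
      exact Subtype.ext h5
    · rw [eq_top_iff]
      rintro ⟨_, ⟨z, rfl⟩⟩ -
      refine X.ind (P := fun z => (⟨f z, ⟨z, rfl⟩⟩ : LinearMap.range f) ∈
        ⨆ i : ℕ × ℕ, (X.piece i.1 i.2).comap (LinearMap.range f).subtype) ?_ ?_ ?_ z
      · have e : (⟨f 0, ⟨0, rfl⟩⟩ : LinearMap.range f) = 0 := Subtype.ext (map_zero f)
        rw [e]
        exact Submodule.zero_mem _
      · intro x y hx hy
        have e : (⟨f (x + y), ⟨x + y, rfl⟩⟩ : LinearMap.range f) =
            ⟨f x, ⟨x, rfl⟩⟩ + ⟨f y, ⟨y, rfl⟩⟩ := Subtype.ext (map_add f x y)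
        rw [e]
        exact Submodule.add_mem _ hx hy
      · intro p q x hx
        exact Submodule.mem_iSup_of_mem ((p, q) : ℕ × ℕ) (h.mem hx)
  form := (X.form.domRestrict (LinearMap.range f)).compl₂ (LinearMap.range f).subtype

theorem subForm_form (h : Compat X f) (x y : LinearMap.range f) :
    (subForm h).form x y = X.form x y := rfl

theorem sub_hl (h : Compat X f) {p q : ℕ} (x : LinearMap.range f)
    (hx : (x : X.H) ∈ X.piece p q) (hpq : p + q ≤ n)
    (h0 : (restr f X.lef h.lef ^ (n - (p + q))) x = 0) : x = 0 := by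
  have h1 : (X.lef ^ (n - (p + q))) (x : X.H) = 0 := by
    rw [← restr_pow f X.lef h.lef, h0]
    rfl
  exact Subtype.ext (X.hard_lefschetz hx hpq h1)

theorem sub_hr (h : Compat X f) {p q : ℕ} (x : LinearMap.range f)
    (hx : (x : X.H) ∈ X.piece p q) (hpq : p + q ≤ n)
    (h0 : (restr f X.lef h.lef ^ (n - (p + q) + 1)) x = 0) (hx0 : x ≠ 0) :
    0 < (Complex.I ^ p * (-Complex.I) ^ q * (-1) ^ ((p + q) * (p + q - 1) / 2) *
      X.form (((restr f X.lef h.lef ^ (n - (p + q))) x : LinearMap.range f) : X.H)
        (x : X.H)).re := by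
  have h1 : (X.lef ^ (n - (p + q) + 1)) (x : X.H) = 0 := by
    rw [← restr_pow f X.lef h.lef, h0]
    rfl
  have h2 := X.hodge_riemann hx hpq h1 (fun h3 => hx0 (Subtype.ext h3))
  rw [restr_pow]
  exact h2

/-- The image of a compatible idempotent. -/
def sub (h : Compat X f) : Twisted n where
  toGradedForm := subForm h
  duality := {
    form_zero := fun {p q p' q' x y} hx hy h1 =>
      X.form_zero (p := p) (q := q) (p' := p') (q' := q') hx hy h1
    form_swap := fun {p q p' q' x y} hx hy =>
      X.form_swap (p := p) (q := q) (p' := p') (q' := q') hx hy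
    form_nondeg := fun (x : LinearMap.range f) hx => Subtype.ext (h.nondeg _ (h.fix x.2)
      fun y hy => hx (⟨y, ⟨y, hy⟩⟩ : LinearMap.range f)) }
  lef := restr f X.lef h.lef
  lef_cup := {
    mem := fun {p q x} hx => X.lef_mem (p := p) (q := q) hx
    form_eq := fun (x y : LinearMap.range f) => X.lef_form (x : X.H) (y : X.H) }
  hardLefschetz := fun {_ _ x} hx hpq h0 => sub_hl h x hx hpq h0
  hodgeRiemann := fun {_ _ x} hx hpq h0 hx0 => sub_hr h x hx hpq h0 hx0
  chern := restr f X.chern h.chern
  chern_cup := {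
    mem := fun {p q x} hx => X.chern_mem (p := p) (q := q) hx
    form_eq := fun (x y : LinearMap.range f) => X.chern_form (x : X.H) (y : X.H) }

theorem sub_hodgeNumber (h : Compat X f) (p q : ℕ) :
    (sub h).hodgeNumber p q = finrank ℂ (LinearMap.range f ⊓ X.piece p q : Submodule ℂ X.H) := by
  have e : ((X.piece p q).comap (LinearMap.range f).subtype).map (LinearMap.range f).subtype =
      LinearMap.range f ⊓ X.piece p q := Submodule.map_comap_subtype _ _
  rw [← e, Submodule.finrank_map_subtype_eq]
  rfl

end Pool.Agent.R929.OC
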