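import Pool.Agent.R929.OC.Sub

/-!
# Transforms of the images of idempotents
-/

namespace Pool.Agent.R929.OC

open Module Finset Pool.Agent.TH125.Tw

variable {n : ℕ} {X Y : Twisted n} {f : Module.End ℂ X.H} {g : Module.End ℂ Y.H}

theorem sub_mem_piece (h : Compat X f) {p q : ℕ} (x : LinearMap.range f) :
    (show (sub h).H from x) ∈ (sub h).piece p q ↔ (x : X.H) ∈ X.piece p q := Iff.rfl

theorem sub_dual (h : Compat X f) (x : LinearMap.range f) :
    (show X.H from (show LinearMap.range f from (sub h).dual x)) = X.dual x := by
  refine (sub h).ind (P := fun x : LinearMap.range f =>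
    (show X.H from (show LinearMap.range f from (sub h).dual x)) = X.dual x) ?_ ?_ ?_ x
  · show (show X.H from (show LinearMap.range f from (sub h).dual 0)) = X.dual 0
    rw [map_zero, map_zero]
    rfl
  · intro x y hx hy
    show (show X.H from (show LinearMap.range f from (sub h).dual (x + y))) =
      X.dual ((show X.H from (show LinearMap.range f from x)) +
        (show X.H from (show LinearMap.range f from y)))
    rw [map_add, map_add]
    rw [← hx, ← hy]
    rfl
  · intro p q x hx
    have h1 := (sub h).dual_apply hx
    have h2 := X.dual_apply (p := p) (q := q) (x := (show X.H from (show LinearMap.range f from x))) hx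
    show (show X.H from (show LinearMap.range f from (sub h).dual x)) =
      X.dual (show X.H from (show LinearMap.range f from x))
    rw [h1, h2]
    rfl

/-- The inclusion. -/
def incl (h : Compat X f) : (sub h).H →ₗ[ℂ] X.H := (LinearMap.range f).subtype

theorem incl_chern (h : Compat X f) (k : ℕ) (x : (sub h).H) :
    incl h (((sub h).chern ^ k) x) = (X.chern ^ k) (incl h x) :=
  restr_pow f X.chern h.chern k x

theorem incl_expChern (h : Compat X f) (t : ℂ) (x : (sub h).H) :
    incl h ((sub h).expChern t x) = X.expChern t (incl h x) := by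
  unfold Twisted.expChern
  rw [LinearMap.sum_apply, LinearMap.sum_apply, map_sum]
  refine Finset.sum_congr rfl fun k _ => ?_
  rw [LinearMap.smul_apply, LinearMap.smul_apply, map_smul, incl_chern]

theorem incl_dual (h : Compat X f) (x : (sub h).H) :
    incl h ((sub h).dual x) = X.dual (incl h x) := sub_dual h x

theorem sub_expChern (h : Compat X f) (t : ℂ) (x : LinearMap.range f) :
    (show X.H from (show LinearMap.range f from (sub h).expChern t x)) = X.expChern t x :=
  incl_expChern h t x

theorem sub_mukai (h : Compat X f) (x y : LinearMap.range f) :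
    (sub h).mukai x y = X.mukai x y := by
  show X.form (show X.H from (show LinearMap.range f from (sub h).expChern (1 / 2)
    ((sub h).dual x))) (y : X.H) = X.form (X.expChern (1 / 2) (X.dual x)) y
  rw [sub_expChern h (1 / 2) ((sub h).dual x)]
  have h1 := sub_dual h x
  rw [← h1]

theorem sub_column (h : Compat X f) {p q : ℕ} (x : LinearMap.range f)
    (hx : (x : X.H) ∈ X.column p q) : (show (sub h).H from x) ∈ (sub h).column p q := by
  have h1 : X.column p q ≤ ((sub h).column p q).comap
      (show X.H →ₗ[ℂ] (sub h).H from f.rangeRestrict) := by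
    refine iSup_le fun a => iSup_le fun b => iSup_le fun hab => ?_
    intro z hz
    have h2 : (show (sub h).H from f.rangeRestrict z) ∈ (sub h).piece a b := h.mem hz
    exact Submodule.mem_iSup_of_mem a (Submodule.mem_iSup_of_mem b
      (Submodule.mem_iSup_of_mem hab h2))
  have h3 := h1 hx
  have h4 : f.rangeRestrict (x : X.H) = x := Subtype.ext (h.fix x.2)
  rw [Submodule.mem_comap] at h3
  have h5 : (show X.H →ₗ[ℂ] (sub h).H from f.rangeRestrict) (x : X.H) =
      (show (sub h).H from x) := h4
  rwa [h5] at h3

theorem map_range (Φ : Transform X Y) (hfg : ∀ x, Φ.map (f x) = g (Φ.map x)) :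
    (LinearMap.range f).map (Φ.map : X.H →ₗ[ℂ] Y.H) = LinearMap.range g := by
  apply le_antisymm
  · rintro _ ⟨_, ⟨z, rfl⟩, rfl⟩
    exact ⟨Φ.map z, (hfg z).symm⟩
  · rintro _ ⟨z, rfl⟩
    refine ⟨f (Φ.map.symm z), ⟨_, rfl⟩, ?_⟩
    show Φ.map (f (Φ.map.symm z)) = g z
    rw [hfg, LinearEquiv.apply_symm_apply]

/-- The transform of the images. -/
noncomputable def subTransform (hf : Compat X f) (hg : Compat Y g) (Φ : Transform X Y)
    (hfg : ∀ x, Φ.map (f x) = g (Φ.map x)) : Transform (sub hf) (sub hg) where
  map := LinearEquiv.ofSubmodules Φ.map (LinearMap.range f) (LinearMap.range g)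
    (map_range Φ hfg)
  map_mem := fun {p q x} hx => by
    refine sub_column hg (LinearEquiv.ofSubmodules Φ.map (LinearMap.range f) (LinearMap.range g)
      (map_range Φ hfg) x) ?_
    exact Φ.map_mem (p := p) (q := q) (x := (show X.H from (show LinearMap.range f from x))) hx
  map_mukai := fun (x y : LinearMap.range f) => by
    have h1 := sub_mukai hg (LinearEquiv.ofSubmodules Φ.map (LinearMap.range f)
      (LinearMap.range g) (map_range Φ hfg) x) (LinearEquiv.ofSubmodules Φ.map
      (LinearMap.range f) (LinearMap.range g) (map_range Φ hfg) y)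
    have h2 := sub_mukai hf x y
    refine h1.trans (Eq.trans ?_ h2.symm)
    exact Φ.map_mukai x y

end Pool.Agent.R929.OC
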